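import Pool.Agent.NUC62.RGF

/-! The compactly supported kernel `U_G = V - RG` on a circle: Fourier expansion. -/

open MeasureTheory Set Filter Topology
open scoped Real

namespace NUC62

open NUMF NUWC

noncomputable section

theorem RG_neg (G s : ℝ) : RG G (-s) = RG G s := by unfold RG; rw [abs_neg]

theorem RG_cont {G : ℝ} (hG : 1 ≤ G) : Continuous (RG G) := by
  unfold RG
  refine continuous_of_dominated (bound := fun x => V2 x * (1 + x + x ^ 2)) ?_ ?_ (V2_int hG) ?_
  · intro s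
    exact (V2_meas.mul (by fun_prop)).aestronglyMeasurable
  · intro s
    filter_upwards [ae_restrict_mem measurableSet_Ioi] with x hx
    have hx1 : 1 ≤ x := hG.trans (le_of_lt hx)
    have h1 := V2_pos (by linarith : 0 < x)
    have h2 : max (x - |s|) 0 ≤ 1 + x + x ^ 2 := by
      refine max_le ?_ (by positivity)
      have := abs_nonneg s
      nlinarith
    rw [norm_mul, Real.norm_eq_abs, Real.norm_eq_abs, abs_of_pos h1,
      abs_of_nonneg (le_max_right _ _)]
    gcongr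
  · exact ae_of_all _ fun x => by fun_prop

theorem RG_exp {G : ℝ} (hG : 1 ≤ G) : ∀ t, |RG G t| ≤
    (24 + RG G 0 * Real.exp (2 * G)) * Real.exp (-2 * |t|) := by
  intro t
  have h0 := RG_nonneg hG 0
  rcases le_or_gt G |t| with h | h
  · rw [RG_out hG h, ← V_abs]
    have := V_abs_le (hG.trans h)
    rw [show -(2 * |t|) = -2 * |t| by ring] at this
    refine this.trans ?_
    gcongr
    have := Real.exp_pos (2 * G)
    nlinarith
  · rw [abs_of_nonneg (RG_nonneg hG t)]
    calc RG G t ≤ RG G 0 := RG_le hG t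
      _ = RG G 0 * 1 := by ring
      _ ≤ RG G 0 * (Real.exp (2 * G) * Real.exp (-2 * |t|)) := by
        gcongr
        rw [← Real.exp_add]
        exact Real.one_le_exp (by linarith)
      _ ≤ _ := by
        have := Real.exp_pos (-2 * |t|)
        nlinarith

theorem summable_RGh {G Λ : ℝ} (hG : 1 ≤ G) (hΛ : 0 < Λ) : Summable fun p : ℕ => RGh G (kp Λ p) := by
  have hpi := Real.pi_pos
  have h1 : Summable fun p : ℕ => 4 * RGm G / (2 * π / Λ) ^ 2 * (1 / ((p : ℝ) + 1) ^ 2) := by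
    have := (Real.summable_one_div_nat_pow (p := 2)).2 one_lt_two
    have h2 := (summable_nat_add_iff (f := fun n : ℕ => 1 / (n : ℝ) ^ 2) 1).2 this
    push_cast at h2
    exact h2.mul_left _
  refine Summable.of_nonneg_of_le (fun p => RGh_nonneg hG _) (fun p => ?_) h1
  refine (RGh_le' hG).trans (le_of_eq ?_)
  unfold kp
  field_simp

/-- Poisson for `RG` -/
theorem poisson_RG {G Λ : ℝ} (hG : 1 ≤ G) (hΛ : 0 < Λ) (x : ℝ) :
    ∑' n : ℤ, RG G (x + n * Λ) = RGz G / Λ +
      ∑' p : ℕ, 2 / Λ * RGh G (kp Λ p) * Real.cos (kp Λ p * x) := by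
  have hpi := Real.pi_pos
  have hcos : ∀ p : ℕ, ∫ t, RG G t * Real.cos (2 * π * ((p + 1 : ℤ) : ℝ) / Λ * t) =
      RGh G (kp Λ p) := by
    intro p
    rw [← RG_forward hG (kp_pos hΛ p).ne']
    congr 1
    funext t
    unfold kp
    push_cast
    rfl
  have heven : ∀ p : ℤ, ∫ t, RG G t * Real.cos (2 * π * ((-p : ℤ) : ℝ) / Λ * t) =
      ∫ t, RG G t * Real.cos (2 * π * (p : ℝ) / Λ * t) := by
    intro p
    congr 1
    funext t
    rw [show 2 * π * ((-p : ℤ) : ℝ) / Λ * t = -(2 * π * (p : ℝ) / Λ * t) by push_cast; ring,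
      Real.cos_neg]
  have hs0 : Summable fun p : ℕ => ∫ t, RG G t * Real.cos (2 * π * ((p + 1 : ℤ) : ℝ) / Λ * t) :=
    (summable_RGh hG hΛ).congr fun p => (hcos p).symm
  have hs : Summable fun p : ℤ => ∫ t, RG G t * Real.cos (2 * π * p / Λ * t) :=
    (even_hasSum heven hs0).summable
  rw [poisson_even (RG_cont hG) (RG_integrable hG) (RG_neg G) (RG_exp hG) hΛ hs x]
  have hs1 : Summable fun p : ℕ => (∫ t, RG G t * Real.cos (2 * π * ((p + 1 : ℤ) : ℝ) / Λ * t)) *
      Real.cos (2 * π * ((p + 1 : ℤ) : ℝ) / Λ * x) :=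
    Summable.of_norm_bounded hs0.norm fun p => by
      rw [norm_mul]
      exact mul_le_of_le_one_right (norm_nonneg _) (Real.abs_cos_le_one _)
  have h2 := even_hasSum (f := fun p : ℤ => (∫ t, RG G t * Real.cos (2 * π * p / Λ * t)) *
      Real.cos (2 * π * p / Λ * x)) (by
        intro n
        rw [heven, show 2 * π * ((-n : ℤ) : ℝ) / Λ * x = -(2 * π * (n : ℝ) / Λ * x) by
          push_cast; ring, Real.cos_neg]) hs1
  rw [h2.tsum_eq, mul_add]
  congr 1
  · simp only [Int.cast_zero, mul_zero, zero_div, zero_mul, Real.cos_zero, mul_one]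
    rw [RG_zero hG]
    ring
  · rw [← mul_assoc, ← tsum_mul_left]
    congr 1
    funext p
    rw [hcos]
    have e : 2 * π * ((p + 1 : ℤ) : ℝ) / Λ * x = kp Λ p * x := by
      unfold kp
      push_cast
      ring
    rw [e]
    ring

theorem summable_RG {G Λ : ℝ} (hG : 1 ≤ G) (hΛ : 0 < Λ) (x : ℝ) :
    Summable fun n : ℤ => RG G (x + n * Λ) :=
  Summable.of_norm_bounded ((summable_exp_int hΛ x).mul_left _) fun n => RG_exp hG _

/-- coefficients of the compactly supported kernel -/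
def wG (G Λ : ℝ) (p : ℕ) : ℝ := wc Λ p + 2 / Λ * RGh G (kp Λ p)

theorem summable_wc {Λ : ℝ} (hΛ : 0 < Λ) : Summable (wc Λ) := by
  have hl := l_pos
  refine Summable.of_norm_bounded (g := fun p : ℕ => 2 * (6 / ((1 - Real.exp (-(π * kp Λ 0))) / 2) *
        Real.exp (-(l * kp Λ p)))) (((summable_kexp hΛ hl).mul_left _).mul_left _) fun p => ?_
  have h1 := rem_le hΛ (by rw [l4]; positivity) (by rw [l4]) p (a := 4 * l)
  rw [rem_limit (kp_pos hΛ p)] at h1
  have h2 : 2 / ((p : ℝ) + 1) ≤ 2 := by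
    apply div_le_self (by norm_num)
    have : (0:ℝ) ≤ p := Nat.cast_nonneg p
    linarith
  unfold wc
  rw [norm_mul, Real.norm_eq_abs, Real.norm_eq_abs,
    abs_of_pos (by positivity : 0 < 2 / ((p : ℝ) + 1)), abs_sub_comm]
  gcongr

theorem summable_wG {G Λ : ℝ} (hG : 1 ≤ G) (hΛ : 0 < Λ) : Summable (wG G Λ) :=
  (summable_wc hΛ).add ((summable_RGh hG hΛ).mul_left _)

theorem wc_nonneg {Λ : ℝ} (hΛ : 0 < Λ) (p : ℕ) : 0 ≤ wc Λ p := by
  have hpi := Real.pi_pos
  have hk := kp_pos hΛ p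
  have := R_le_one (y := π * kp Λ p / 8) (by positivity)
  unfold wc
  have : 0 ≤ 1 - R (π * kp Λ p / 8) := by linarith
  positivity

theorem wG_nonneg {G Λ : ℝ} (hG : 1 ≤ G) (hΛ : 0 < Λ) (p : ℕ) : 0 ≤ wG G Λ p := by
  have h1 := wc_nonneg hΛ p
  have h2 := RGh_nonneg hG (kp Λ p)
  unfold wG
  positivity

/-- constant term of the compactly supported kernel -/
def uG (G Λ : ℝ) : ℝ := (9 * π ^ 2 / 32 - RGz G) / Λ

/-- **Fourier expansion of the compactly supported kernel.** -/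
theorem UG_series {G Λ x : ℝ} (hG : 1 ≤ G) (hx0 : 0 < x) (hx : x ≤ Λ - G) :
    V x - RG G x = uG G Λ - 2 * Real.log ‖1 - Complex.exp ((2 * π * x / Λ : ℝ) * Complex.I)‖ -
      ∑' p : ℕ, wG G Λ p * Real.cos (kp Λ p * x) := by
  have hx' : x < Λ := by linarith
  have hΛ : 0 < Λ := hx0.trans hx'
  obtain ⟨hs, h1⟩ := poisson_V hx0 hx'
  have h2 := poisson_RG hG hΛ x
  have h3 : ∑' n : ℤ, (V (x + n * Λ) - RG G (x + n * Λ)) = V x - RG G x := by
    rw [tsum_eq_single 0]
    · simp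
    · intro n hn
      rw [RG_out hG, sub_self]
      rcases lt_or_gt_of_ne hn with h | h
      · have h1 : (n : ℝ) ≤ -1 := by exact_mod_cast (by omega : n ≤ -1)
        have h2 : (n : ℝ) * Λ ≤ -Λ := by nlinarith
        rw [abs_of_neg (by linarith)]
        linarith
      · have h1 : (1 : ℝ) ≤ n := by exact_mod_cast (by omega : 1 ≤ n)
        have h2 : Λ ≤ (n : ℝ) * Λ := by nlinarith
        rw [abs_of_pos (by linarith)]
        linarith
  rw [← h3, (hs.tsum_sub (summable_RG hG hΛ x)), h1, h2]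
  have hb1 : Summable fun p : ℕ => wc Λ p * Real.cos (kp Λ p * x) :=
    Summable.of_norm_bounded (summable_wc hΛ) fun p => by
      rw [norm_mul, Real.norm_eq_abs, Real.norm_eq_abs, abs_of_nonneg (wc_nonneg hΛ p)]
      exact mul_le_of_le_one_right (wc_nonneg hΛ p) (Real.abs_cos_le_one _)
  have hb2 : Summable fun p : ℕ => 2 / Λ * RGh G (kp Λ p) * Real.cos (kp Λ p * x) :=
    Summable.of_norm_bounded ((summable_RGh hG hΛ).mul_left (2 / Λ)) fun p => by
      have h0 : 0 ≤ 2 / Λ * RGh G (kp Λ p) := by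
        have := RGh_nonneg hG (kp Λ p)
        positivity
      rw [norm_mul, Real.norm_eq_abs, Real.norm_eq_abs, abs_of_nonneg h0]
      exact mul_le_of_le_one_right h0 (Real.abs_cos_le_one _)
  have h4 : ∑' p : ℕ, wG G Λ p * Real.cos (kp Λ p * x) =
      ∑' p : ℕ, wc Λ p * Real.cos (kp Λ p * x) +
      ∑' p : ℕ, 2 / Λ * RGh G (kp Λ p) * Real.cos (kp Λ p * x) := by
    rw [← hb1.tsum_add hb2]
    congr 1
    funext p
    unfold wG
    ring
  rw [h4, uG]
  ring

/-- `lim ω(t) / t²` -/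
def cω : ℝ := 4 / ((1 - r) * (1 + r) ^ 2)

theorem omega_eq (t : ℝ) : w t * g t = Real.sinh t ^ 2 *
    (Real.cosh (2 * t) / (Real.cosh (2 * t) - r) * (4 * Real.cosh t ^ 2 / (Real.cosh (2 * t) + r) ^ 2)) := by
  unfold w g
  ring

/-- behaviour at `0` -/
theorem V_log_tendsto {Λ : ℝ} (hΛ : 0 < Λ) :
    Tendsto (fun x => V x + 2 * Real.log ‖1 - Complex.exp ((2 * π * x / Λ : ℝ) * Complex.I)‖)
      (𝓝[>] 0) (𝓝 (Real.log ((2 * π / Λ) ^ 2 / cω))) := by
  have hpi := Real.pi_pos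
  have hr := r_lt_one
  have hr0 := r_pos
  -- ratio
  have h1 : Tendsto (fun x : ℝ => Real.sinh x / x) (𝓝[>] 0) (𝓝 1) := by
    have := (Real.hasDerivAt_sinh 0).tendsto_slope_zero_right
    simp only [zero_add, Real.sinh_zero, sub_zero, Real.cosh_zero, smul_eq_mul] at this
    refine this.congr fun x => ?_
    ring
  have h2 : Tendsto (fun x : ℝ => ‖1 - Complex.exp ((2 * π * x / Λ : ℝ) * Complex.I)‖ / x)
      (𝓝[>] 0) (𝓝 (2 * π / Λ)) := by
    have h3 : ∀ x : ℝ, ‖1 - Complex.exp ((2 * π * x / Λ : ℝ) * Complex.I)‖ =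
        2 * |Real.sin (π * x / Λ)| := by
      intro x
      have e := Complex.norm_exp_I_mul_ofReal_sub_one (2 * π * x / Λ)
      rw [norm_sub_rev, mul_comm _ Complex.I, e, norm_mul, Real.norm_eq_abs, Real.norm_eq_abs,
        abs_of_pos (by norm_num : (0:ℝ) < 2)]
      congr 3
      ring
    simp_rw [h3]
    have h4 : Tendsto (fun x : ℝ => Real.sin (π * x / Λ) / x) (𝓝[>] 0) (𝓝 (π / Λ)) := by
      have e1 : HasDerivAt (fun x : ℝ => Real.sin (π * x / Λ)) (Real.cos (π * 0 / Λ) * (π / Λ)) 0 := by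
        apply HasDerivAt.sin
        have := ((hasDerivAt_id (0:ℝ)).const_mul π).div_const Λ
        simpa using this
      have := e1.tendsto_slope_zero_right
      simp only [zero_add, mul_zero, zero_div, Real.sin_zero, sub_zero, Real.cos_zero, smul_eq_mul,
        one_mul] at this
      refine this.congr fun x => ?_
      ring
    have h5 : ∀ᶠ x : ℝ in 𝓝[>] 0, 2 * (Real.sin (π * x / Λ) / x) =
        2 * |Real.sin (π * x / Λ)| / x := by
      have : ∀ᶠ x : ℝ in 𝓝[>] 0, 0 < x ∧ x < Λ := by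
        have a1 : ∀ᶠ x : ℝ in 𝓝[>] 0, 0 < x := eventually_mem_nhdsWithin
        have a2 : ∀ᶠ x : ℝ in 𝓝[>] 0, x < Λ := (eventually_lt_nhds hΛ).filter_mono nhdsWithin_le_nhds
        exact a1.and a2
      filter_upwards [this] with x hx
      have : 0 < Real.sin (π * x / Λ) := Real.sin_pos_of_pos_of_lt_pi (by have := hx.1; positivity) (by
        rw [div_lt_iff₀ hΛ]
        have := hx.2
        gcongr)
      rw [abs_of_pos this]
      ring
    have := (h4.const_mul 2).congr' h5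
    convert this using 2
    ring
  have h3 : Tendsto (fun x : ℝ => Real.cosh (2 * x) / (Real.cosh (2 * x) - r) *
      (4 * Real.cosh x ^ 2 / (Real.cosh (2 * x) + r) ^ 2)) (𝓝[>] 0) (𝓝 cω) := by
    have hd : ∀ x, 0 < Real.cosh (2 * x) - r := fun x => by
      have := Real.one_le_cosh (2 * x); linarith
    have hd2 : ∀ x, 0 < Real.cosh (2 * x) + r := fun x => by
      have := Real.one_le_cosh (2 * x); linarith
    have : Continuous fun x : ℝ => Real.cosh (2 * x) / (Real.cosh (2 * x) - r) *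
      (4 * Real.cosh x ^ 2 / (Real.cosh (2 * x) + r) ^ 2) := by
      refine Continuous.mul ?_ ?_
      · exact Continuous.div (by fun_prop) (by fun_prop) fun x => (hd x).ne'
      · exact Continuous.div (by fun_prop) (by fun_prop) fun x => (pow_pos (hd2 x) 2).ne'
    have h := (this.tendsto 0).mono_left (nhdsWithin_le_nhds (s := Ioi 0))
    convert h using 2
    simp only [mul_zero, Real.cosh_zero]
    unfold cω
    have e1 : (1:ℝ) - r ≠ 0 := by linarith
    have e2 : (1:ℝ) + r ≠ 0 := by linarith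
    field_simp
  have hc : 0 < cω := by
    unfold cω
    have : 0 < 1 - r := by linarith
    positivity
  have h4 : Tendsto (fun x : ℝ => (‖1 - Complex.exp ((2 * π * x / Λ : ℝ) * Complex.I)‖ / x) ^ 2 /
      ((Real.sinh x / x) ^ 2 * (Real.cosh (2 * x) / (Real.cosh (2 * x) - r) *
      (4 * Real.cosh x ^ 2 / (Real.cosh (2 * x) + r) ^ 2)))) (𝓝[>] 0)
      (𝓝 ((2 * π / Λ) ^ 2 / (1 ^ 2 * cω))) :=
    (h2.pow 2).div ((h1.pow 2).mul h3) (by positivity)
  have h5 := h4.log (by positivity)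
  rw [one_pow, one_mul] at h5
  refine h5.congr' ?_
  have : ∀ᶠ x : ℝ in 𝓝[>] 0, 0 < x ∧ x < Λ := by
    have a1 : ∀ᶠ x : ℝ in 𝓝[>] 0, 0 < x := eventually_mem_nhdsWithin
    have a2 : ∀ᶠ x : ℝ in 𝓝[>] 0, x < Λ := (eventually_lt_nhds hΛ).filter_mono nhdsWithin_le_nhds
    exact a1.and a2
  filter_upwards [this] with x hx
  have hx0 := hx.1
  have hsh : 0 < Real.sinh x := Real.sinh_pos_iff.2 hx0
  have hn : 0 < ‖1 - Complex.exp ((2 * π * x / Λ : ℝ) * Complex.I)‖ := by
    rw [norm_pos_iff, sub_ne_zero]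
    intro h0
    have h0' := h0.symm
    rw [Complex.exp_eq_one_iff] at h0'
    obtain ⟨n, hn⟩ := h0'
    have h2 : 2 * π * x / Λ = n * (2 * π) := by
      have h3 : ((2 * π * x / Λ : ℝ) : ℂ) * Complex.I = ((n * (2 * π) : ℝ) : ℂ) * Complex.I := by
        rw [hn]
        push_cast
        ring
      exact_mod_cast mul_right_cancel₀ Complex.I_ne_zero h3
    have h4 : x = n * Λ := by
      field_simp at h2
      linarith
    have h5 : (0:ℝ) < n := by
      by_contra h
      push Not at h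
      nlinarith
    have h6 : (1:ℝ) ≤ n := by
      have : (0:ℤ) < n := by exact_mod_cast h5
      exact_mod_cast (by omega : 1 ≤ n)
    nlinarith [hx.2]
  have hd : 0 < Real.cosh (2 * x) - r := by
    have := Real.one_le_cosh (2 * x); linarith
  have hd2 : 0 < Real.cosh (2 * x) + r := by
    have := Real.one_le_cosh (2 * x); linarith
  have hcx := Real.cosh_pos x
  have hcx2 := Real.cosh_pos (2 * x)
  have e1 : (‖1 - Complex.exp ((2 * π * x / Λ : ℝ) * Complex.I)‖ / x) ^ 2 /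
      ((Real.sinh x / x) ^ 2 * (Real.cosh (2 * x) / (Real.cosh (2 * x) - r) *
      (4 * Real.cosh x ^ 2 / (Real.cosh (2 * x) + r) ^ 2))) =
      ‖1 - Complex.exp ((2 * π * x / Λ : ℝ) * Complex.I)‖ ^ 2 / (w x * g x) := by
    rw [omega_eq]
    field_simp
  have hwg : 0 < w x * g x := by
    rw [omega_eq]
    positivity
  rw [e1, Real.log_div (by positivity) hwg.ne', Real.log_pow]
  unfold V
  push_cast
  ring

/-- the value of the regular part at `0` -/
theorem value_zero {G Λ : ℝ} (hG : 1 ≤ G) (hΛ : G < Λ) :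
    uG G Λ - ∑' p, wG G Λ p = Real.log ((2 * π / Λ) ^ 2 / cω) - RG G 0 := by
  have hΛ0 : 0 < Λ := by linarith
  have h1 : Tendsto (fun x => (V x + 2 * Real.log ‖1 - Complex.exp ((2 * π * x / Λ : ℝ) * Complex.I)‖) -
      RG G x) (𝓝[>] 0) (𝓝 (Real.log ((2 * π / Λ) ^ 2 / cω) - RG G 0)) :=
    (V_log_tendsto hΛ0).sub (((RG_cont hG).tendsto 0).mono_left nhdsWithin_le_nhds)
  have h2 : Tendsto (fun x => uG G Λ - ∑' p : ℕ, wG G Λ p * Real.cos (kp Λ p * x)) (𝓝[>] 0)
      (𝓝 (uG G Λ - ∑' p : ℕ, wG G Λ p * Real.cos (kp Λ p * 0))) := by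
    have : Continuous fun x => uG G Λ - ∑' p : ℕ, wG G Λ p * Real.cos (kp Λ p * x) := by
      refine continuous_const.sub (continuous_tsum (fun p => by fun_prop) (summable_wG hG hΛ0)
        fun p x => ?_)
      rw [norm_mul, Real.norm_eq_abs, Real.norm_eq_abs, abs_of_nonneg (wG_nonneg hG hΛ0 p)]
      exact mul_le_of_le_one_right (wG_nonneg hG hΛ0 p) (Real.abs_cos_le_one _)
    exact (this.tendsto 0).mono_left nhdsWithin_le_nhds
  have h3 : ∀ᶠ x : ℝ in 𝓝[>] 0, uG G Λ - ∑' p : ℕ, wG G Λ p * Real.cos (kp Λ p * x) =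
      (V x + 2 * Real.log ‖1 - Complex.exp ((2 * π * x / Λ : ℝ) * Complex.I)‖) - RG G x := by
    have a1 : ∀ᶠ x : ℝ in 𝓝[>] 0, 0 < x := eventually_mem_nhdsWithin
    have a2 : ∀ᶠ x : ℝ in 𝓝[>] 0, x < Λ - G :=
      (eventually_lt_nhds (by linarith)).filter_mono nhdsWithin_le_nhds
    filter_upwards [a1, a2] with x hx hx2
    have := UG_series hG hx hx2.le
    linarith
  have h4 := tendsto_nhds_unique (h2.congr' h3) h1
  simpa using h4

end

end NUC62
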