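import Pool.Agent.Szego62.RU

/-!
Change of variables: the sharp upper bound `RU` for a window of the line inside a circle of
length `Λ`, in `lintegral` form.
-/

open MeasureTheory Finset Filter
open scoped Topology Real ENNReal

namespace NUC62

open Pool.Agent.Szego62 (mu Wser Aser RU abs_term_c)

noncomputable section

theorem Wser_cont {w : ℕ → ℝ} (hws : Summable fun k => |w k|) : Continuous (Wser w) := by
  unfold Wser
  refine continuous_tsum (fun k => by fun_prop) hws fun k x => ?_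
  rw [Real.norm_eq_abs, abs_mul]
  exact mul_le_of_le_one_right (abs_nonneg _) (Real.abs_cos_le_one _)

theorem Aser_cont {c : ℕ → ℂ} (hc : Summable fun k => ‖c k‖) : Continuous (Aser c) := by
  unfold Aser
  refine continuous_tsum (fun k => by fun_prop) (hc.mul_left 2) fun k x => ?_
  rw [Real.norm_eq_abs]
  exact abs_term_c c k x

theorem Wser_abs_le {w : ℕ → ℝ} (hws : Summable fun k => |w k|) (x : ℝ) :
    |Wser w x| ≤ ∑' k, |w k| := by
  unfold Wser
  rw [← Real.norm_eq_abs]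
  refine tsum_of_norm_bounded hws.hasSum fun k => ?_
  rw [Real.norm_eq_abs, abs_mul]
  exact mul_le_of_le_one_right (abs_nonneg _) (Real.abs_cos_le_one _)

theorem Aser_abs_le {c : ℕ → ℂ} (hc : Summable fun k => ‖c k‖) (x : ℝ) :
    |Aser c x| ≤ ∑' k, 2 * ‖c k‖ := by
  unfold Aser
  rw [← Real.norm_eq_abs]
  refine tsum_of_norm_bounded (hc.mul_left 2).hasSum fun k => ?_
  rw [Real.norm_eq_abs]
  exact abs_term_c c k x

/-- `RU` as a bound for a `lintegral` -/
theorem RU_lintegral (n : ℕ) (w : ℕ → ℝ) (hw : ∀ k, 0 ≤ w k)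
    (hw2 : ∀ k : ℕ, ((k : ℝ) + 1) * w k < 2)
    (hws : Summable w) (c : ℕ → ℂ) (hc : Summable fun k => ‖c k‖) (a0 E : ℝ)
    (hE : ∀ K, ∏ k ∈ range K, ((1 - ((k : ℝ) + 1) * w k / 2)⁻¹ *
      Real.exp (((k : ℝ) + 1) * ‖c k‖ ^ 2 / (1 - ((k : ℝ) + 1) * w k / 2))) ≤ Real.exp E) :
    ∫⁻ θ : Fin n → ℝ, ENNReal.ofReal (Pool.Agent.Szego62.V n θ *
      Real.exp (∑ i, ∑ j ∈ Ioi i, Wser w (θ i - θ j)) *
      Real.exp (∑ i, (a0 + Aser c (θ i)))) ∂(Measure.pi fun _ => mu) ≤
    ENNReal.ofReal ((n.factorial : ℝ) * Real.exp (n * a0 - (n : ℝ) / 2 * ∑' k, w k + E)) := by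
  have hws' : Summable fun k => |w k| := by simpa [abs_of_nonneg, hw] using hws
  have h1 := RU n w hw hw2 hws c hc a0 E hE
  have hcW := Wser_cont hws'
  have hcA := Aser_cont hc
  rw [← ofReal_integral_eq_lintegral_ofReal]
  · exact ENNReal.ofReal_le_ofReal h1
  · have hcont : Continuous fun θ : Fin n → ℝ => Pool.Agent.Szego62.V n θ *
      Real.exp (∑ i, ∑ j ∈ Ioi i, Wser w (θ i - θ j)) *
      Real.exp (∑ i, (a0 + Aser c (θ i))) := by
      unfold Pool.Agent.Szego62.V
      fun_prop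
    refine Integrable.of_bound hcont.aestronglyMeasurable
      ((∏ i : Fin n, ∏ j ∈ Ioi i, (4 : ℝ)) *
        Real.exp (∑ i : Fin n, ∑ j ∈ Ioi i, ∑' k, |w k|) *
        Real.exp (∑ i : Fin n, (|a0| + ∑' k, 2 * ‖c k‖))) (ae_of_all _ fun θ => ?_)
    rw [Real.norm_eq_abs, abs_of_nonneg (by
      have := Mix56.V_nonneg n θ
      positivity)]
    gcongr
    · exact Mix56.V_le n θ
    · exact (le_abs_self _).trans (Wser_abs_le hws' _)
    · exact le_abs_self a0
    · exact (le_abs_self _).trans (Aser_abs_le hc _)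
  · exact ae_of_all _ fun θ => by
      have := Mix56.V_nonneg n θ
      simp only [Pi.zero_apply]
      positivity

/-- angle to position -/
def ev (Λ θ : ℝ) : ℝ := Λ / (2 * π) * (θ - π)

theorem vol_ev {Λ : ℝ} (hΛ : 0 < Λ) (s : Set ℝ) (hs : MeasurableSet s) :
    volume.restrict (Set.Ioc (-(Λ / 2)) (Λ / 2)) s = ENNReal.ofReal Λ * mu (ev Λ ⁻¹' s) := by
  have hpi := Real.pi_pos
  have hm : Measurable (ev Λ) := by unfold ev; fun_prop
  have h1 : ev Λ ⁻¹' s ∩ Set.Ioc 0 (2 * π) = ev Λ ⁻¹' (s ∩ Set.Ioc (-(Λ / 2)) (Λ / 2)) := by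
    ext θ
    simp only [Set.mem_inter_iff, Set.mem_preimage, Set.mem_Ioc, and_congr_right_iff]
    intro _
    unfold ev
    have hc : 0 < Λ / (2 * π) := by positivity
    constructor
    · rintro ⟨h1, h2⟩
      constructor
      · have : Λ / (2 * π) * (-π) < Λ / (2 * π) * (θ - π) := by
          apply mul_lt_mul_of_pos_left _ hc; linarith
        have e : Λ / (2 * π) * (-π) = -(Λ / 2) := by field_simp
        linarith
      · have : Λ / (2 * π) * (θ - π) ≤ Λ / (2 * π) * π := by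
          apply mul_le_mul_of_nonneg_left _ hc.le; linarith
        have e : Λ / (2 * π) * π = Λ / 2 := by field_simp
        linarith
    · rintro ⟨h1, h2⟩
      constructor
      · by_contra h
        have h3 : θ - π ≤ -π := by linarith
        have : Λ / (2 * π) * (θ - π) ≤ Λ / (2 * π) * (-π) :=
          mul_le_mul_of_nonneg_left h3 hc.le
        have e : Λ / (2 * π) * (-π) = -(Λ / 2) := by field_simp
        linarith
      · by_contra h
        have h3 : π < θ - π := by linarith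
        have : Λ / (2 * π) * π < Λ / (2 * π) * (θ - π) :=
          mul_lt_mul_of_pos_left h3 hc
        have e : Λ / (2 * π) * π = Λ / 2 := by field_simp
        linarith
  have h2 : ev Λ ⁻¹' (s ∩ Set.Ioc (-(Λ / 2)) (Λ / 2)) =
      (fun θ => θ + (-π)) ⁻¹' ((fun x => Λ / (2 * π) * x) ⁻¹' (s ∩ Set.Ioc (-(Λ / 2)) (Λ / 2))) := by
    ext θ
    simp only [Set.mem_preimage, ev, sub_eq_add_neg]
  rw [mu, Measure.smul_apply, Measure.restrict_apply (hm hs), h1, h2]
  rw [measure_preimage_add_right, Real.volume_preimage_mul_left (by positivity),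
    Measure.restrict_apply hs, smul_eq_mul, abs_of_pos (by positivity), ← mul_assoc, ← mul_assoc]
  have h3 : ENNReal.ofReal Λ * (ENNReal.ofReal (2 * π))⁻¹ * ENNReal.ofReal (Λ / (2 * π))⁻¹ = 1 := by
    rw [← ENNReal.ofReal_inv_of_pos (by positivity), ← ENNReal.ofReal_mul hΛ.le,
      ← ENNReal.ofReal_mul (by positivity)]
    rw [ENNReal.ofReal_eq_one]
    field_simp
  rw [h3, one_mul]

theorem pi_ev {Λ : ℝ} (hΛ : 0 < Λ) (n : ℕ) :
    (Measure.pi fun _ : Fin n => volume.restrict (Set.Ioc (-(Λ / 2)) (Λ / 2))) =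
    (ENNReal.ofReal Λ) ^ n • Measure.map (fun (θ : Fin n → ℝ) i => ev Λ (θ i))
      (Measure.pi fun _ => mu) := by
  have hm : Measurable (ev Λ) := by unfold ev; fun_prop
  have hM : Measurable fun (θ : Fin n → ℝ) i => ev Λ (θ i) := by
    unfold ev
    fun_prop
  apply Measure.pi_eq
  intro s hs
  rw [Measure.smul_apply, Measure.map_apply hM (MeasurableSet.univ_pi hs)]
  have h1 : (fun (θ : Fin n → ℝ) i => ev Λ (θ i)) ⁻¹' (Set.univ.pi s) =
      Set.univ.pi fun i => ev Λ ⁻¹' (s i) := by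
    ext θ
    simp
  rw [h1, Measure.pi_pi, smul_eq_mul]
  simp_rw [vol_ev hΛ _ (hs _)]
  rw [prod_mul_distrib]
  simp

/-- the twisted coefficients -/
theorem Aser_shift (c : ℕ → ℂ) (x : ℝ) :
    Aser (fun k => (-1) ^ (k + 1) * c k) (x + π) = Aser c x := by
  unfold Aser
  congr 1
  funext k
  congr 2
  have h1 : Complex.exp ((k + 1 : ℂ) * ((x + π : ℝ) : ℂ) * Complex.I) =
      Complex.exp ((k + 1 : ℂ) * x * Complex.I) * (-1) ^ (k + 1) := by
    rw [← Complex.exp_pi_mul_I, ← Complex.exp_nat_mul, ← Complex.exp_add]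
    congr 1
    push_cast
    ring
  rw [h1]
  have h2 : ((-1 : ℂ) ^ (k + 1)) * (-1) ^ (k + 1) = 1 := by
    rw [← mul_pow]; simp
  linear_combination (c k * Complex.exp ((k + 1 : ℂ) * x * Complex.I)) * h2

/-- **Window inside a circle.** -/
theorem circ {Λ : ℝ} (hΛ : 0 < Λ) (n : ℕ) (w : ℕ → ℝ) (hw : ∀ k, 0 ≤ w k)
    (hw2 : ∀ k : ℕ, ((k : ℝ) + 1) * w k < 2)
    (hws : Summable w) (c : ℕ → ℂ) (hc : Summable fun k => ‖c k‖) (a0 E : ℝ)
    (hE : ∀ K, ∏ k ∈ range K, ((1 - ((k : ℝ) + 1) * w k / 2)⁻¹ *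
      Real.exp (((k : ℝ) + 1) * ‖c k‖ ^ 2 / (1 - ((k : ℝ) + 1) * w k / 2))) ≤ Real.exp E)
    (u0 : ℝ) (S : Set ℝ) (hSm : MeasurableSet S)
    (hS : S ⊆ Set.Ioc (-(Λ / 2)) (Λ / 2))
    (ω g : ℝ → ℝ) (hω0 : ∀ x, 0 ≤ ω x) (hg0 : ∀ x, 0 ≤ g x)
    (hω : ∀ x ∈ S, ∀ y ∈ S, ω (x - y) ≤ Real.exp (-u0) *
      ‖1 - Complex.exp ((2 * π * (x - y) / Λ : ℝ) * Complex.I)‖ ^ 2 *
      Real.exp (Wser w (2 * π * (x - y) / Λ)))
    (hg : ∀ x ∈ S, g x ≤ Real.exp (a0 + Aser c (2 * π * x / Λ))) :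
    ∫⁻ t : Fin n → ℝ in Set.univ.pi fun _ => S,
      ENNReal.ofReal ((∏ i, ∏ j ∈ Ioi i, ω (t i - t j)) * ∏ i, g (t i)) ≤
    ENNReal.ofReal ((n.factorial : ℝ) * Λ ^ n *
      Real.exp (n * a0 - (n : ℝ) * (n - 1) / 2 * u0 - (n : ℝ) / 2 * ∑' k, w k + E)) := by
  have hpi := Real.pi_pos
  have hws' : Summable fun k => |w k| := by simpa [abs_of_nonneg, hw] using hws
  set c' : ℕ → ℂ := fun k => (-1) ^ (k + 1) * c k with hc'
  have hn' : ∀ k, ‖c' k‖ = ‖c k‖ := fun k => by simp [hc']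
  have hcs : Summable fun k => ‖c' k‖ := by simpa [hn'] using hc
  have h1 := RU_lintegral n w hw hw2 hws c' hcs a0 E (by simpa [hn'] using hE)
  have hcW := Wser_cont hws'
  have hcA := Aser_cont hc
  -- the continuous majorant
  set H : (Fin n → ℝ) → ℝ := fun t =>
    (∏ i, ∏ j ∈ Ioi i, (‖1 - Complex.exp ((2 * π * (t i - t j) / Λ : ℝ) * Complex.I)‖ ^ 2 *
      Real.exp (Wser w (2 * π * (t i - t j) / Λ)))) *
      ∏ i, Real.exp (a0 + Aser c (2 * π * t i / Λ)) with hH
  have hHc : Continuous H := by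
    rw [hH]
    fun_prop
  have hsub : (Set.univ.pi fun _ : Fin n => S) ⊆
      Set.univ.pi fun _ : Fin n => Set.Ioc (-(Λ / 2)) (Λ / 2) :=
    Set.pi_mono fun _ _ => hS
  have hprod : ∏ i : Fin n, ∏ j ∈ Ioi i, Real.exp (-u0) =
      Real.exp (-((n : ℝ) * (n - 1) / 2 * u0)) := by
    simp only [← Real.exp_sum]
    congr 1
    simp only [sum_const, smul_neg, nsmul_eq_mul, sum_neg_distrib, neg_inj]
    rw [← sum_mul]
    congr 1
    have h2 : ∑ i : Fin n, ((#(Ioi i) : ℕ) : ℝ) = ∑ i : Fin n, ((n : ℝ) - 1 - (i : ℕ)) := by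
      refine sum_congr rfl fun i _ => ?_
      rw [Fin.card_Ioi, Nat.sub_sub, Nat.cast_sub (by have := i.2; omega)]
      push_cast
      ring
    rw [h2, Fin.sum_univ_eq_sum_range (fun i => (n : ℝ) - 1 - (i : ℝ)) n, sum_sub_distrib]
    simp only [sum_const, card_range, nsmul_eq_mul]
    have h3 := Finset.sum_range_id_mul_two n
    have h4 : (∑ i ∈ range n, (i : ℝ)) * 2 = n * (n - 1) := by
      rcases Nat.eq_zero_or_pos n with h0 | h0
      · subst h0; simp
      · have := congrArg (Nat.cast (R := ℝ)) h3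
        push_cast [Nat.cast_sub h0] at this
        simpa using this
    linarith
  calc ∫⁻ t : Fin n → ℝ in Set.univ.pi fun _ => S,
      ENNReal.ofReal ((∏ i, ∏ j ∈ Ioi i, ω (t i - t j)) * ∏ i, g (t i)) ≤
      ∫⁻ t : Fin n → ℝ in Set.univ.pi fun _ => S,
        ENNReal.ofReal (Real.exp (-((n : ℝ) * (n - 1) / 2 * u0)) * H t) := by
        refine lintegral_mono_ae ((ae_restrict_iff' (MeasurableSet.univ_pi fun _ => hSm)).2
          (ae_of_all _ fun t ht => ENNReal.ofReal_le_ofReal ?_))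
        rw [Set.mem_univ_pi] at ht
        rw [hH, ← hprod]
        simp only
        rw [← mul_assoc]
        refine mul_le_mul ?_ (prod_le_prod (fun i _ => hg0 _) fun i _ => hg _ (ht i))
          (prod_nonneg fun i _ => hg0 _) (mul_nonneg
          (prod_nonneg fun i _ => prod_nonneg fun j _ => (Real.exp_pos _).le)
          (prod_nonneg fun i _ => prod_nonneg fun j _ => by positivity))
        rw [← prod_mul_distrib]
        refine prod_le_prod (fun i _ => prod_nonneg fun j _ => hω0 _) fun i _ => ?_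
        rw [← prod_mul_distrib]
        refine prod_le_prod (fun j _ => hω0 _) fun j _ => ?_
        rw [← mul_assoc]
        exact hω _ (ht i) _ (ht j)
    _ ≤ ∫⁻ t : Fin n → ℝ in Set.univ.pi fun _ => Set.Ioc (-(Λ / 2)) (Λ / 2),
        ENNReal.ofReal (Real.exp (-((n : ℝ) * (n - 1) / 2 * u0)) * H t) :=
        lintegral_mono' (Measure.restrict_mono hsub le_rfl) le_rfl
    _ = ENNReal.ofReal (Real.exp (-((n : ℝ) * (n - 1) / 2 * u0))) *
        ∫⁻ t : Fin n → ℝ in Set.univ.pi fun _ => Set.Ioc (-(Λ / 2)) (Λ / 2),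
        ENNReal.ofReal (H t) := by
        rw [← lintegral_const_mul _ (by fun_prop)]
        simp_rw [ENNReal.ofReal_mul (Real.exp_nonneg _)]
    _ = ENNReal.ofReal (Real.exp (-((n : ℝ) * (n - 1) / 2 * u0))) *
        ((ENNReal.ofReal Λ) ^ n * ∫⁻ θ : Fin n → ℝ, ENNReal.ofReal (Pool.Agent.Szego62.V n θ *
      Real.exp (∑ i, ∑ j ∈ Ioi i, Wser w (θ i - θ j)) *
      Real.exp (∑ i, (a0 + Aser c' (θ i)))) ∂(Measure.pi fun _ => mu)) := by
        congr 1
        rw [volume_pi, Measure.restrict_pi_pi, pi_ev hΛ n, lintegral_smul_measure,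
          lintegral_map (by fun_prop) (by unfold ev; fun_prop), smul_eq_mul]
        congr 1
        refine lintegral_congr fun θ => ?_
        congr 1
        rw [hH]
        simp only
        have e1 : ∀ x y : ℝ, 2 * π * (ev Λ x - ev Λ y) / Λ = x - y := by
          intro x y
          unfold ev
          field_simp
          ring
        have e2 : ∀ x : ℝ, 2 * π * ev Λ x / Λ = x - π := by
          intro x
          unfold ev
          field_simp
        simp_rw [e1, e2]
        have e3 : ∀ x : ℝ, Aser c (x - π) = Aser c' x := by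
          intro x
          have := Aser_shift c (x - π)
          rw [sub_add_cancel] at this
          exact this.symm
        simp_rw [e3, Real.exp_sum, prod_mul_distrib, Pool.Agent.Szego62.V]
        congr 2
        refine prod_congr rfl fun i _ => prod_congr rfl fun j _ => ?_
        congr 1
        have : Complex.exp (θ i * Complex.I) - Complex.exp (θ j * Complex.I) =
            -(Complex.exp (θ j * Complex.I) *
              (1 - Complex.exp (((θ i - θ j : ℝ) : ℂ) * Complex.I))) := by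
          rw [mul_sub, mul_one, ← Complex.exp_add]
          have : (θ j : ℂ) * Complex.I + ((θ i - θ j : ℝ) : ℂ) * Complex.I = θ i * Complex.I := by
            push_cast; ring
          rw [this]
          ring
        rw [this, norm_neg, norm_mul, Complex.norm_exp_ofReal_mul_I, one_mul]
    _ ≤ ENNReal.ofReal (Real.exp (-((n : ℝ) * (n - 1) / 2 * u0))) *
        ((ENNReal.ofReal Λ) ^ n *
        ENNReal.ofReal ((n.factorial : ℝ) * Real.exp (n * a0 - (n : ℝ) / 2 * ∑' k, w k + E))) := by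
        gcongr
    _ = _ := by
        rw [← ENNReal.ofReal_pow hΛ.le, ← ENNReal.ofReal_mul (by positivity),
          ← ENNReal.ofReal_mul (by positivity)]
        congr 1
        rw [show (n : ℝ) * a0 - (n : ℝ) * (n - 1) / 2 * u0 - (n : ℝ) / 2 * ∑' k, w k + E =
          (-((n : ℝ) * (n - 1) / 2 * u0)) + (n * a0 - (n : ℝ) / 2 * ∑' k, w k + E) by ring,
          Real.exp_add (-((n : ℝ) * (n - 1) / 2 * u0))]
        generalize Real.exp (n * a0 - (n : ℝ) / 2 * ∑' k, w k + E) = X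
        generalize Real.exp (-((n : ℝ) * (n - 1) / 2 * u0)) = Y
        ring

end

end NUC62
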