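import Pool.Agent.NUC62.RGP
import Pool.Agent.NUC62.Circle

/-!
# The one component circle bound

`circ_bound`: sharp upper bound of the partition function of the one component gas on the window
`[-T, T]` with pair function `w g exp (RG G)` (compactly supported interaction), placed on a circle
of length `Λ ≥ 2 T + G`, with a real potential given by a Fourier series.
-/

open MeasureTheory Set Filter Topology
open scoped Real ENNReal

namespace NUC62

open NUMF NUWC
open Pool.Agent.Szego62 (mu Wser Aser RU abs_term_c)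

noncomputable section

/-- symbol of `V` -/
def Vh (k : ℝ) : ℝ := 2 * π / k * R (π * k / 8)

/-- symbol of the compactly supported kernel `V - RG G` -/
def uh (G k : ℝ) : ℝ := Vh k - RGh G k

/-- pair function of the compactly supported interaction -/
def omG (G t : ℝ) : ℝ := w t * g t * Real.exp (RG G t)

/-- `R y ≥ tanh (y / 2)` -/
theorem R_ge {y : ℝ} (hy : 0 < y) : Real.tanh (y / 2) ≤ R y := by
  unfold R
  have h1 : 0 < Real.tanh (y / 2) := by
    rw [Real.tanh_eq_sinh_div_cosh]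
    exact div_pos (Real.sinh_pos_iff.2 (by linarith)) (Real.cosh_pos _)
  have h2 : 0 < 1 / (2 * Real.cosh (2 * y)) := by
    have := Real.cosh_pos (2 * y)
    positivity
  have h3 : 0 < 1 / (2 * Real.cosh y) := by
    have := Real.cosh_pos y
    positivity
  have h4 : 1 ≤ (1 + 1 / (2 * Real.cosh (2 * y))) * (1 + 1 / (2 * Real.cosh y)) := by nlinarith
  calc Real.tanh (y / 2) = Real.tanh (y / 2) * 1 := by ring
    _ ≤ Real.tanh (y / 2) * ((1 + 1 / (2 * Real.cosh (2 * y))) * (1 + 1 / (2 * Real.cosh y))) := by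
      gcongr
    _ = _ := by ring

theorem tanh_ge {z : ℝ} (hz : 0 < z) : z / (1 + z) ≤ Real.tanh z := by
  have h1 : Real.exp (-(2 * z)) ≤ 1 / (1 + 2 * z) := by
    rw [Real.exp_neg, ← one_div]
    apply one_div_le_one_div_of_le (by positivity)
    linarith [Real.add_one_le_exp (2 * z)]
  have h2 : Real.tanh z = (1 - Real.exp (-(2 * z))) / (1 + Real.exp (-(2 * z))) := by
    rw [Real.tanh_eq_sinh_div_cosh, Real.sinh_eq, Real.cosh_eq]
    have e : Real.exp (-(2 * z)) = Real.exp (-z) / Real.exp z := by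
      rw [← Real.exp_sub]; congr 1; ring
    rw [e]
    have := Real.exp_pos z
    have := Real.exp_pos (-z)
    field_simp
  rw [h2]
  have h3 := Real.exp_pos (-(2 * z))
  generalize Real.exp (-(2 * z)) = e at h1 h3
  rw [le_div_iff₀ (by positivity)] at h1
  rw [div_le_div_iff₀ (by positivity) (by positivity)]
  nlinarith

theorem Vh_ge {k : ℝ} (hk : 0 < k) : 1 / (1 + k) ≤ Vh k := by
  have hpi := Real.pi_gt_three
  have hpi4 := Real.pi_lt_four
  have h1 : Real.tanh (π * k / 8 / 2) ≤ R (π * k / 8) := R_ge (by positivity)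
  have h2 := tanh_ge (z := π * k / 8 / 2) (by positivity)
  unfold Vh
  have h3 : 1 / (1 + k) ≤ 2 * π / k * (π * k / 8 / 2 / (1 + π * k / 8 / 2)) := by
    have e : 2 * π / k * (π * k / 8 / 2 / (1 + π * k / 8 / 2)) = 2 * π ^ 2 / (16 + π * k) := by
      field_simp
      ring
    rw [e, div_le_div_iff₀ (by positivity) (by positivity)]
    have a1 : 9 ≤ π ^ 2 := by nlinarith
    nlinarith
  refine h3.trans ?_
  gcongr
  exact h2.trans h1

theorem Vh_pos {k : ℝ} (hk : 0 < k) : 0 < Vh k := lt_of_lt_of_le (by positivity) (Vh_ge hk)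

/-- smallness of `RG` -/
def eG (G : ℝ) : ℝ := 2304 * Real.exp (-G)

theorem RGz_le {G : ℝ} (hG : 1 ≤ G) : RGz G ≤ 576 * Real.exp (-G) := by
  unfold RGz
  have h0 : IntegrableOn (fun x : ℝ => 576 * Real.exp (-1 * x)) (Ioi G) :=
    (integrableOn_exp_mul_Ioi (by norm_num) G).const_mul _
  refine (setIntegral_mono_on (V2x2_int hG) h0 measurableSet_Ioi fun x hx => ?_).trans_eq ?_
  · have hx1 : 1 ≤ x := hG.trans (le_of_lt hx)
    have h1 := V2_abs_le hx1
    have h2 := (le_abs_self _).trans h1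
    have h3 := xx_exp_le (x := x) (by linarith)
    rw [show -1 * x = -x by ring]
    calc V2 x * x ^ 2 ≤ 288 * Real.exp (-(2 * x)) * x ^ 2 := by gcongr
      _ = 288 * (x ^ 2 * Real.exp (-(2 * x))) := by ring
      _ ≤ 288 * (2 * Real.exp (-x)) := by gcongr
      _ = _ := by ring
  · rw [integral_const_mul, integral_exp_mul_Ioi (by norm_num)]
    ring_nf

theorem RGm_nonneg {G : ℝ} (hG : 1 ≤ G) : 0 ≤ RGm G := by
  unfold RGm
  refine setIntegral_nonneg measurableSet_Ioi fun x hx => ?_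
  exact (V2_pos (by linarith [show G < x from hx] : 0 < x)).le

theorem RGm_le' {G : ℝ} (hG : 1 ≤ G) : RGm G ≤ 144 * Real.exp (-G) := by
  refine (RGm_le hG).trans ?_
  gcongr
  linarith

theorem RGh_small {G k : ℝ} (hG : 1 ≤ G) (hk : 0 < k) :
    RGh G k ≤ eG G / (1 + k) * Vh k := by
  have h1 := RGh_le hG k
  have h2 := RGh_le' (k := k) hG
  have h3 := RGz_le hG
  have h4 := RGm_le' hG
  have h5 := Vh_ge hk
  have h6 : RGh G k * (1 + k) ^ 2 ≤ eG G := by
    rw [le_div_iff₀ (by positivity)] at h2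
    have h7 := RGh_nonneg hG k
    have : (1 + k) ^ 2 ≤ 2 * (1 + k ^ 2) := by nlinarith [sq_nonneg (1 - k)]
    unfold eG
    calc RGh G k * (1 + k) ^ 2 ≤ RGh G k * (2 * (1 + k ^ 2)) := by gcongr
      _ = 2 * RGh G k + 2 * (RGh G k * k ^ 2) := by ring
      _ ≤ 2 * (576 * Real.exp (-G)) + 2 * (4 * (144 * Real.exp (-G))) := by
        have a1 := h1.trans h3
        have a2 : RGh G k * k ^ 2 ≤ 4 * (144 * Real.exp (-G)) := h2.trans (by gcongr)
        linarith
      _ = _ := by ring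
  have h7 : RGh G k ≤ eG G / (1 + k) ^ 2 := by
    rw [le_div_iff₀ (by positivity)]
    exact h6
  have h8 : 0 ≤ eG G := by unfold eG; positivity
  calc RGh G k ≤ eG G / (1 + k) ^ 2 := h7
    _ = eG G / (1 + k) * (1 / (1 + k)) := by field_simp
    _ ≤ _ := by gcongr

theorem eG_half {G : ℝ} (hG : 9 ≤ G) : eG G ≤ 1 / 2 := by
  unfold eG
  have h1 : (4608 : ℝ) ≤ Real.exp G := by
    have h2 : Real.exp 9 ≤ Real.exp G := Real.exp_le_exp.2 hG
    have h3 : Real.exp 9 = (Real.exp 1) ^ 9 := by rw [← Real.exp_nat_mul]; norm_num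
    have h4 := Real.exp_one_gt_d9
    have h5 : (2.7 : ℝ) ^ 9 ≤ (Real.exp 1) ^ 9 := by
      apply pow_le_pow_left₀ (by norm_num)
      linarith
    have h6 : (4608 : ℝ) ≤ 2.7 ^ 9 := by norm_num
    linarith
  rw [Real.exp_neg]
  have h2 : (Real.exp G)⁻¹ ≤ (4608 : ℝ)⁻¹ := inv_anti₀ (by norm_num) h1
  linarith

/-- positivity of the symbol -/
theorem uh_ge {G k : ℝ} (hG : 9 ≤ G) (hk : 0 < k) : (1 - eG G / (1 + k)) * Vh k ≤ uh G k := by
  have h1 := RGh_small (by linarith : 1 ≤ G) hk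
  unfold uh
  linarith

theorem ratio_half {G k : ℝ} (hG : 9 ≤ G) (hk : 0 < k) : eG G / (1 + k) ≤ 1 / 2 := by
  have h1 := eG_half hG
  have h0 : 0 ≤ eG G := by unfold eG; positivity
  exact (div_le_self h0 (by linarith)).trans h1

theorem uh_pos {G k : ℝ} (hG : 9 ≤ G) (hk : 0 < k) : 0 < uh G k := by
  have h1 := uh_ge hG hk
  have h2 := ratio_half hG hk
  have h3 := Vh_pos hk
  have : 0 < (1 - eG G / (1 + k)) * Vh k := mul_pos (by linarith) h3
  linarith

/-- truncated coefficients -/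
def wK (G Λ : ℝ) (K p : ℕ) : ℝ := if p < K then wG G Λ p else wc Λ p

theorem wK_le {G Λ : ℝ} (hG : 1 ≤ G) (hΛ : 0 < Λ) (K p : ℕ) : wK G Λ K p ≤ wG G Λ p := by
  unfold wK
  split_ifs
  · exact le_rfl
  · unfold wG
    have := RGh_nonneg hG (kp Λ p)
    have : 0 ≤ 2 / Λ * RGh G (kp Λ p) := by positivity
    linarith

theorem wK_nonneg {G Λ : ℝ} (hG : 1 ≤ G) (hΛ : 0 < Λ) (K p : ℕ) : 0 ≤ wK G Λ K p := by
  unfold wK
  split_ifs
  · exact wG_nonneg hG hΛ p
  · exact wc_nonneg hΛ p

theorem summable_wK {G Λ : ℝ} (hG : 1 ≤ G) (hΛ : 0 < Λ) (K : ℕ) : Summable (wK G Λ K) :=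
  Summable.of_nonneg_of_le (wK_nonneg hG hΛ K) (wK_le hG hΛ K) (summable_wG hG hΛ)

/-- the remaining interaction -/
def tl (G Λ : ℝ) (K : ℕ) : ℝ := ∑' p, (wG G Λ p - wK G Λ K p)

theorem wG_half {G Λ : ℝ} (hΛ : 0 < Λ) (p : ℕ) :
    1 - ((p : ℝ) + 1) * wG G Λ p / 2 = kp Λ p / (2 * π) * uh G (kp Λ p) := by
  have hpi := Real.pi_pos
  have hk := kp_pos hΛ p
  have hp : (0:ℝ) < (p : ℝ) + 1 := by positivity
  unfold wG wc uh Vh
  have e1 : kp Λ p / (2 * π) * (2 * π / kp Λ p * R (π * kp Λ p / 8) - RGh G (kp Λ p)) =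
      R (π * kp Λ p / 8) - kp Λ p / (2 * π) * RGh G (kp Λ p) := by
    field_simp
  have e2 : kp Λ p / (2 * π) = (p + 1) / Λ := by
    unfold kp
    field_simp
  rw [e1, e2]
  field_simp
  ring

theorem wK_half {G Λ : ℝ} (hG : 1 ≤ G) (hΛ : 0 < Λ) (K p : ℕ) :
    kp Λ p / (2 * π) * uh G (kp Λ p) ≤ 1 - ((p : ℝ) + 1) * wK G Λ K p / 2 := by
  rw [← wG_half hΛ]
  have := wK_le hG hΛ K p
  have hp : (0:ℝ) < (p : ℝ) + 1 := by positivity
  have : ((p : ℝ) + 1) * wK G Λ K p ≤ ((p : ℝ) + 1) * wG G Λ p := by gcongr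
  linarith

theorem tl_le {G Λ : ℝ} (hG : 1 ≤ G) (hΛ : 0 < Λ) {K : ℕ} (hK : 0 < K) :
    tl G Λ K ≤ 288 * Real.exp (-G) * Λ / π ^ 2 / K := by
  have hpi := Real.pi_pos
  have hK' : (0:ℝ) < K := by exact_mod_cast hK
  have h0 : Summable fun p => wG G Λ p - wK G Λ K p := (summable_wG hG hΛ).sub (summable_wK hG hΛ K)
  have hm := RGm_le' hG
  -- telescoping majorant
  have h1 : ∀ N, ∑ p ∈ Finset.range N, (wG G Λ p - wK G Λ K p) ≤
      288 * Real.exp (-G) * Λ / π ^ 2 / K := by
    intro N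
    have h2 : ∀ p : ℕ, wG G Λ p - wK G Λ K p ≤ if p < K then 0 else
        288 * Real.exp (-G) * Λ / π ^ 2 * (1 / (p : ℝ) - 1 / ((p : ℝ) + 1)) := by
      intro p
      unfold wK
      split_ifs with h
      · simp
      · push Not at h
        have hp : (0:ℝ) < p := by exact_mod_cast (lt_of_lt_of_le hK h)
        unfold wG
        have h3 := RGh_le' (k := kp Λ p) hG
        have h4 : 1 / ((p : ℝ) + 1) ^ 2 ≤ 1 / (p : ℝ) - 1 / ((p : ℝ) + 1) := by
          rw [div_sub_div _ _ hp.ne' (by positivity), div_le_div_iff₀ (by positivity) (by positivity)]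
          nlinarith
        calc wc Λ p + 2 / Λ * RGh G (kp Λ p) - wc Λ p = 2 / Λ * RGh G (kp Λ p) := by ring
          _ ≤ 2 / Λ * (4 * (144 * Real.exp (-G)) / (kp Λ p) ^ 2) := by
            gcongr
            exact h3.trans (by gcongr)
          _ = 288 * Real.exp (-G) * Λ / π ^ 2 * (1 / ((p : ℝ) + 1) ^ 2) := by
            unfold kp
            field_simp
            ring
          _ ≤ _ := by gcongr
    refine (Finset.sum_le_sum fun p _ => h2 p).trans ?_
    have h5 : ∀ N, ∑ p ∈ Finset.range N, (if p < K then (0:ℝ) else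
        288 * Real.exp (-G) * Λ / π ^ 2 * (1 / (p : ℝ) - 1 / ((p : ℝ) + 1))) ≤
        288 * Real.exp (-G) * Λ / π ^ 2 * (1 / K - if N ≤ K then (1 / K : ℝ) else 1 / N) := by
      intro N
      induction N with
      | zero => simp
      | succ N ih =>
        rw [Finset.sum_range_succ]
        by_cases h : N < K
        · rw [if_pos h, add_zero]
          rw [if_pos h.le] at ih
          rw [if_pos (by omega)]
          exact ih
        · rw [if_neg h]
          push Not at h
          rw [if_neg (by omega)]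
          have hN : (0:ℝ) < N := by exact_mod_cast (lt_of_lt_of_le hK h)
          have h6 : (if N ≤ K then (1 / K : ℝ) else 1 / N) = 1 / N := by
            split_ifs with h7
            · rw [le_antisymm h7 h]
            · rfl
          rw [h6] at ih
          push_cast
          calc _ ≤ 288 * Real.exp (-G) * Λ / π ^ 2 * (1 / K - 1 / N) +
              288 * Real.exp (-G) * Λ / π ^ 2 * (1 / (N : ℝ) - 1 / ((N : ℝ) + 1)) := by gcongr
            _ = _ := by ring
    refine (h5 N).trans ?_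
    rw [div_eq_mul_one_div (288 * Real.exp (-G) * Λ / π ^ 2) (K : ℝ)]
    gcongr
    have : 0 ≤ if N ≤ K then (1 / K : ℝ) else 1 / N := by split_ifs <;> positivity
    linarith
  exact h0.tsum_le_of_sum_range_le h1

/-- the product of the one loop factors -/
theorem loop_bound {G Λ : ℝ} (hG : 9 ≤ G) (hΛ : 0 < Λ) (K K' : ℕ) :
    ∏ p ∈ Finset.range K', (1 - ((p : ℝ) + 1) * wK G Λ K p / 2)⁻¹ ≤
      Real.exp (7 / 12 * Λ + eG G * Λ / π * (1 + Real.log K)) := by
  have hpi := Real.pi_pos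
  have hG1 : 1 ≤ G := by linarith
  have he0 : 0 ≤ eG G := by unfold eG; positivity
  have h1 : ∀ p : ℕ, (1 - ((p : ℝ) + 1) * wK G Λ K p / 2)⁻¹ ≤
      (R (((p : ℝ) + 1) * (π ^ 2 / (4 * Λ))))⁻¹ *
      Real.exp (if p < K then 2 * (eG G / (1 + kp Λ p)) else 0) := by
    intro p
    have hk := kp_pos hΛ p
    have hy : ((p : ℝ) + 1) * (π ^ 2 / (4 * Λ)) = π * kp Λ p / 8 := by
      unfold kp
      field_simp
      ring
    rw [hy]
    have hR := R_pos (y := π * kp Λ p / 8) (by positivity)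
    split_ifs with h
    · have e1 : 1 - ((p : ℝ) + 1) * wK G Λ K p / 2 = kp Λ p / (2 * π) * uh G (kp Λ p) := by
        rw [← wG_half hΛ, wK, if_pos h]
      rw [e1]
      have h2 := uh_ge hG hk
      have h3 := ratio_half hG hk
      set x := eG G / (1 + kp Λ p) with hx
      have hx0 : 0 ≤ x := by positivity
      have h4 : Real.exp (-(2 * x)) ≤ 1 - x := by
        have h5 : Real.exp (-(2 * x)) ≤ 1 / (1 + 2 * x) := by
          rw [Real.exp_neg, ← one_div]
          apply one_div_le_one_div_of_le (by positivity)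
          linarith [Real.add_one_le_exp (2 * x)]
        refine h5.trans ?_
        rw [div_le_iff₀ (by positivity)]
        nlinarith
      have h6 : R (π * kp Λ p / 8) * Real.exp (-(2 * x)) ≤ kp Λ p / (2 * π) * uh G (kp Λ p) := by
        calc R (π * kp Λ p / 8) * Real.exp (-(2 * x)) ≤ R (π * kp Λ p / 8) * (1 - x) := by gcongr
          _ = kp Λ p / (2 * π) * ((1 - x) * Vh (kp Λ p)) := by
            unfold Vh
            field_simp
          _ ≤ _ := by gcongr
      calc (kp Λ p / (2 * π) * uh G (kp Λ p))⁻¹ ≤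
          (R (π * kp Λ p / 8) * Real.exp (-(2 * x)))⁻¹ := inv_anti₀ (by positivity) h6
        _ = _ := by
          rw [mul_inv, ← Real.exp_neg, neg_neg]
    · rw [Real.exp_zero, mul_one, wK, if_neg h, wc]
      have hp : (0:ℝ) < (p : ℝ) + 1 := by positivity
      apply le_of_eq
      congr 1
      field_simp
      ring
  have h0 : ∀ p : ℕ, 0 ≤ (1 - ((p : ℝ) + 1) * wK G Λ K p / 2)⁻¹ := by
    intro p
    have h2 := wK_half hG1 hΛ K p
    have h3 := uh_pos hG (kp_pos hΛ p)
    have h4 := kp_pos hΛ p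
    have : 0 < kp Λ p / (2 * π) * uh G (kp Λ p) := by positivity
    exact inv_nonneg.2 (by linarith)
  refine (Finset.prod_le_prod (fun p _ => h0 p) fun p _ => h1 p).trans ?_
  rw [Finset.prod_mul_distrib, Real.exp_add]
  have h2 := one_loop hΛ K'
  have h3 : ∏ p ∈ Finset.range K', Real.exp (if p < K then 2 * (eG G / (1 + kp Λ p)) else 0) ≤
      Real.exp (eG G * Λ / π * (1 + Real.log K)) := by
    rw [← Real.exp_sum]
    apply Real.exp_le_exp.2
    have h4 : ∑ p ∈ Finset.range K', (if p < K then 2 * (eG G / (1 + kp Λ p)) else 0) ≤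
        ∑ p ∈ Finset.range K, 2 * (eG G / (1 + kp Λ p)) := by
      rw [← Finset.sum_filter]
      refine Finset.sum_le_sum_of_subset_of_nonneg ?_ ?_
      · intro p hp
        simp only [Finset.mem_filter, Finset.mem_range] at hp ⊢
        exact hp.2
      · intro p _ _
        have := kp_pos hΛ p
        positivity
    refine h4.trans ?_
    have h5 : ∀ p ∈ Finset.range K, 2 * (eG G / (1 + kp Λ p)) ≤
        eG G * Λ / π * (((p : ℝ) + 1))⁻¹ := by
      intro p _
      have hk := kp_pos hΛ p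
      have hp : (0:ℝ) < (p : ℝ) + 1 := by positivity
      calc 2 * (eG G / (1 + kp Λ p)) ≤ 2 * (eG G / kp Λ p) := by
            gcongr
            linarith
        _ = _ := by
          unfold kp
          field_simp
    refine (Finset.sum_le_sum h5).trans ?_
    rw [← Finset.mul_sum]
    gcongr
    have h6 := harmonic_le_one_add_log K
    unfold harmonic at h6
    push_cast at h6
    exact h6
  have h30 : 0 ≤ ∏ p ∈ Finset.range K', Real.exp (if p < K then 2 * (eG G / (1 + kp Λ p)) else 0) :=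
    Finset.prod_nonneg fun p _ => (Real.exp_pos _).le
  gcongr

/-- the error exponent -/
def err (G Λ : ℝ) (n : ℕ) : ℝ := eG G * Λ * (1 + Real.log ((n : ℝ) ^ 2 + 1))

/-- pointwise bound of the pair function by the circular one -/
theorem omG_le {G Λ : ℝ} (hG : 1 ≤ G) (K : ℕ) {x : ℝ} (hx : |x| ≤ Λ - G) (hΛ : G < Λ) :
    omG G x ≤ Real.exp (-(uG G Λ - tl G Λ K)) *
      ‖1 - Complex.exp ((2 * π * x / Λ : ℝ) * Complex.I)‖ ^ 2 *
      Real.exp (Wser (wK G Λ K) (2 * π * x / Λ)) := by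
  have hΛ0 : 0 < Λ := by linarith
  rcases eq_or_ne x 0 with h0 | h0
  · subst h0
    unfold omG w
    rw [Real.sinh_zero]
    simp
  -- reduce to `x > 0`
  have key : ∀ x : ℝ, 0 < x → x ≤ Λ - G → omG G x ≤ Real.exp (-(uG G Λ - tl G Λ K)) *
      ‖1 - Complex.exp ((2 * π * x / Λ : ℝ) * Complex.I)‖ ^ 2 *
      Real.exp (Wser (wK G Λ K) (2 * π * x / Λ)) := by
    intro x hx0 hx
    have h1 := UG_series hG hx0 hx
    have hpos : 0 < w x * g x := by
      rw [omega_eq]
      have hr := r_lt_one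
      have hr0 := r_pos
      have a1 : 0 < Real.sinh x := Real.sinh_pos_iff.2 hx0
      have a2 : 0 < Real.cosh (2 * x) - r := by have := Real.one_le_cosh (2 * x); linarith
      have a3 : 0 < Real.cosh (2 * x) + r := by have := Real.one_le_cosh (2 * x); linarith
      have a4 := Real.cosh_pos x
      have a5 := Real.cosh_pos (2 * x)
      positivity
    have hom : omG G x = Real.exp (-(V x - RG G x)) := by
      unfold omG V
      rw [show -(-Real.log (w x * g x) - RG G x) = Real.log (w x * g x) + RG G x by ring,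
        Real.exp_add, Real.exp_log hpos]
    have hn : 0 ≤ ‖1 - Complex.exp ((2 * π * x / Λ : ℝ) * Complex.I)‖ := norm_nonneg _
    have hsum : ∑' p : ℕ, wG G Λ p * Real.cos (kp Λ p * x) ≤
        Wser (wK G Λ K) (2 * π * x / Λ) + tl G Λ K := by
      have e1 : Wser (wK G Λ K) (2 * π * x / Λ) = ∑' p : ℕ, wK G Λ K p * Real.cos (kp Λ p * x) := by
        unfold Wser
        congr 1
        funext p
        congr 2
        unfold kp
        ring
      have hb1 : Summable fun p : ℕ => wK G Λ K p * Real.cos (kp Λ p * x) :=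
        Summable.of_norm_bounded (summable_wK hG hΛ0 K) fun p => by
          rw [norm_mul, Real.norm_eq_abs, Real.norm_eq_abs, abs_of_nonneg (wK_nonneg hG hΛ0 K p)]
          exact mul_le_of_le_one_right (wK_nonneg hG hΛ0 K p) (Real.abs_cos_le_one _)
      have hb2 : Summable fun p : ℕ => wG G Λ p * Real.cos (kp Λ p * x) :=
        Summable.of_norm_bounded (summable_wG hG hΛ0) fun p => by
          rw [norm_mul, Real.norm_eq_abs, Real.norm_eq_abs, abs_of_nonneg (wG_nonneg hG hΛ0 p)]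
          exact mul_le_of_le_one_right (wG_nonneg hG hΛ0 p) (Real.abs_cos_le_one _)
      rw [e1, tl, ← hb1.tsum_add ((summable_wG hG hΛ0).sub (summable_wK hG hΛ0 K))]
      refine hb2.tsum_le_tsum (fun p => ?_)
        (hb1.add ((summable_wG hG hΛ0).sub (summable_wK hG hΛ0 K)))
      have h2 := wK_le hG hΛ0 K p
      have h3 := Real.cos_le_one (kp Λ p * x)
      nlinarith
    have hlog : Real.exp (2 * Real.log ‖1 - Complex.exp ((2 * π * x / Λ : ℝ) * Complex.I)‖) ≤
        ‖1 - Complex.exp ((2 * π * x / Λ : ℝ) * Complex.I)‖ ^ 2 := by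
      rw [show 2 * Real.log ‖1 - Complex.exp ((2 * π * x / Λ : ℝ) * Complex.I)‖ =
        Real.log (‖1 - Complex.exp ((2 * π * x / Λ : ℝ) * Complex.I)‖ ^ 2) by
          rw [Real.log_pow]; push_cast; ring]
      rcases hn.eq_or_lt with h | h
      · exfalso
        have h2 := h.symm
        rw [norm_eq_zero, sub_eq_zero] at h2
        have h0' := h2.symm
        rw [Complex.exp_eq_one_iff] at h0'
        obtain ⟨n, hn⟩ := h0'
        have h2 : 2 * π * x / Λ = n * (2 * π) := by
          have h3 : ((2 * π * x / Λ : ℝ) : ℂ) * Complex.I = ((n * (2 * π) : ℝ) : ℂ) * Complex.I := by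
            rw [hn]
            push_cast
            ring
          exact_mod_cast mul_right_cancel₀ Complex.I_ne_zero h3
        have h4 : x = n * Λ := by
          have hpi := Real.pi_pos
          field_simp at h2
          linarith
        have h5 : (0:ℝ) < n := by
          by_contra h
          push Not at h
          nlinarith
        have h6 : (1:ℝ) ≤ n := by
          have : (0:ℤ) < n := by exact_mod_cast h5
          exact_mod_cast (by omega : 1 ≤ n)
        nlinarith
      · rw [Real.exp_log (by positivity)]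
    rw [hom, h1]
    calc Real.exp (-(uG G Λ - 2 * Real.log ‖1 - Complex.exp ((2 * π * x / Λ : ℝ) * Complex.I)‖ -
          ∑' p : ℕ, wG G Λ p * Real.cos (kp Λ p * x))) =
        Real.exp (-(uG G Λ)) *
        Real.exp (2 * Real.log ‖1 - Complex.exp ((2 * π * x / Λ : ℝ) * Complex.I)‖) *
        Real.exp (∑' p : ℕ, wG G Λ p * Real.cos (kp Λ p * x)) := by
          rw [← Real.exp_add, ← Real.exp_add]
          congr 1
          ring
      _ ≤ Real.exp (-(uG G Λ)) *
        ‖1 - Complex.exp ((2 * π * x / Λ : ℝ) * Complex.I)‖ ^ 2 *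
        Real.exp (Wser (wK G Λ K) (2 * π * x / Λ) + tl G Λ K) := by gcongr
      _ = _ := by
        rw [show -(uG G Λ - tl G Λ K) = -(uG G Λ) + tl G Λ K by ring, Real.exp_add, Real.exp_add]
        ring
  rcases lt_or_gt_of_ne h0 with h | h
  · have h1 := key (-x) (by linarith) (by rw [abs_of_neg h] at hx; exact hx)
    have e1 : omG G (-x) = omG G x := by
      unfold omG w g
      rw [Real.sinh_neg, Real.cosh_neg, mul_neg, Real.cosh_neg, RG_neg, neg_sq]
    have e2 : ‖1 - Complex.exp ((2 * π * (-x) / Λ : ℝ) * Complex.I)‖ =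
        ‖1 - Complex.exp ((2 * π * x / Λ : ℝ) * Complex.I)‖ := by
      have h3 : (1 - Complex.exp ((2 * π * (-x) / Λ : ℝ) * Complex.I)) =
          -(Complex.exp ((2 * π * (-x) / Λ : ℝ) * Complex.I) *
            (1 - Complex.exp ((2 * π * x / Λ : ℝ) * Complex.I))) := by
        rw [mul_sub, mul_one, ← Complex.exp_add]
        have : ((2 * π * (-x) / Λ : ℝ) : ℂ) * Complex.I + ((2 * π * x / Λ : ℝ) : ℂ) * Complex.I = 0 := by
          push_cast; ring
        rw [this, Complex.exp_zero]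
        ring
      rw [h3, norm_neg, norm_mul, Complex.norm_exp_ofReal_mul_I, one_mul]
    have e3 : Wser (wK G Λ K) (2 * π * (-x) / Λ) = Wser (wK G Λ K) (2 * π * x / Λ) := by
      unfold Wser
      congr 1
      funext p
      rw [show ((p : ℝ) + 1) * (2 * π * (-x) / Λ) = -(((p : ℝ) + 1) * (2 * π * x / Λ)) by ring,
        Real.cos_neg]
    rw [e1, e2, e3] at h1
    exact h1
  · exact key x h (by rw [abs_of_pos h] at hx; exact hx)

/-- **The one component circle bound.** -/
theorem circ_bound {G Λ T : ℝ} (hG : 9 ≤ G) (hT : 0 < T) (hΛ : 2 * T + G ≤ Λ) (n : ℕ)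
    (c : ℕ → ℂ) (hc : Summable fun k => ‖c k‖) (a0 Q : ℝ)
    (hQ : ∀ K, ∑ p ∈ Finset.range K, Λ * ‖c p‖ ^ 2 / uh G (kp Λ p) ≤ Q)
    (f : ℝ → ℝ) (hf0 : ∀ x, 0 ≤ f x)
    (hf : ∀ x, |x| ≤ T → f x ≤ Real.exp (a0 + Aser c (2 * π * x / Λ))) :
    ∫⁻ t : Fin n → ℝ in Set.univ.pi fun _ => Icc (-T) T,
      ENNReal.ofReal ((∏ i, ∏ j ∈ Finset.Ioi i, omG G (t i - t j)) * ∏ i, f (t i)) ≤
    ENNReal.ofReal ((n.factorial : ℝ) * (2 * π / √cω) ^ n *
      Real.exp (n * a0 - (n : ℝ) ^ 2 / 2 * uG G Λ - (n : ℝ) / 2 * RG G 0 + Q + 7 / 12 * Λ +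
        err G Λ n)) := by
  have hpi := Real.pi_pos
  have hG1 : 1 ≤ G := by linarith
  have hΛ0 : 0 < Λ := by linarith
  have hr := r_lt_one
  have hr0 := r_pos
  have hcω : 0 < cω := by
    unfold cω
    have : 0 < 1 - r := by linarith
    positivity
  set K : ℕ := n ^ 2 + 1 with hK
  have hKpos : 0 < K := by omega
  have hKr : (K : ℝ) = (n : ℝ) ^ 2 + 1 := by rw [hK]; push_cast; ring
  set E : ℝ := Q + (7 / 12 * Λ + eG G * Λ / π * (1 + Real.log K)) with hE
  have hhalf : ∀ p : ℕ, 0 < 1 - ((p : ℝ) + 1) * wK G Λ K p / 2 := by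
    intro p
    have h2 := wK_half hG1 hΛ0 K p
    have h3 := uh_pos hG (kp_pos hΛ0 p)
    have h4 := kp_pos hΛ0 p
    have : 0 < kp Λ p / (2 * π) * uh G (kp Λ p) := by positivity
    linarith
  have h1 := circ hΛ0 n (wK G Λ K) (wK_nonneg hG1 hΛ0 K) (fun p => by
      have := hhalf p
      linarith) (summable_wK hG1 hΛ0 K) c hc a0 E (by
      intro K'
      rw [Finset.prod_mul_distrib, hE, Real.exp_add, mul_comm (Real.exp Q)]
      refine mul_le_mul (loop_bound hG hΛ0 K K') ?_ (Finset.prod_nonneg fun p _ =>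
        (Real.exp_pos _).le) (Real.exp_pos _).le
      rw [← Real.exp_sum]
      apply Real.exp_le_exp.2
      refine le_trans (Finset.sum_le_sum fun p _ => ?_) (hQ K')
      have h2 := wK_half hG1 hΛ0 K p
      have h3 := uh_pos hG (kp_pos hΛ0 p)
      have h4 := kp_pos hΛ0 p
      have h5 : 0 < kp Λ p / (2 * π) * uh G (kp Λ p) := by positivity
      calc ((p : ℝ) + 1) * ‖c p‖ ^ 2 / (1 - ((p : ℝ) + 1) * wK G Λ K p / 2) ≤
          ((p : ℝ) + 1) * ‖c p‖ ^ 2 / (kp Λ p / (2 * π) * uh G (kp Λ p)) := by gcongr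
        _ = _ := by
          unfold kp
          unfold kp at h3
          field_simp)
    (uG G Λ - tl G Λ K) (Icc (-T) T) measurableSet_Icc (fun x hx => by
      constructor
      · have := hx.1; linarith
      · have := hx.2; linarith) (omG G) f (fun x => by
        unfold omG w g
        have a2 : 0 < Real.cosh (2 * x) - r := by have := Real.one_le_cosh (2 * x); linarith
        have a3 : 0 < Real.cosh (2 * x) + r := by have := Real.one_le_cosh (2 * x); linarith
        have a5 := Real.cosh_pos (2 * x)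
        positivity) hf0 (fun x hx y hy => omG_le hG1 K (by
          rw [abs_le]
          constructor
          · linarith [hx.1, hy.2]
          · linarith [hx.2, hy.1]) (by linarith)) (fun x hx => hf x (abs_le.2 ⟨hx.1, hx.2⟩))
  refine h1.trans (ENNReal.ofReal_le_ofReal ?_)
  -- compare the exponents
  have hv := value_zero hG1 (by linarith : G < Λ)
  have hw : ∑' p, wK G Λ K p = ∑' p, wG G Λ p - tl G Λ K := by
    rw [tl, (summable_wG hG1 hΛ0).tsum_sub (summable_wK hG1 hΛ0 K)]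
    ring
  have hpw : (2 * π / √cω) ^ n = Λ ^ n * Real.exp ((n : ℝ) / 2 * Real.log ((2 * π / Λ) ^ 2 / cω)) := by
    have e1 : Real.exp ((n : ℝ) / 2 * Real.log ((2 * π / Λ) ^ 2 / cω)) = (2 * π / Λ / √cω) ^ n := by
      have e2 : (2 * π / Λ) ^ 2 / cω = (2 * π / Λ / √cω) ^ 2 := by
        rw [div_pow (2 * π / Λ), Real.sq_sqrt hcω.le]
      have e3 : 0 < 2 * π / Λ / √cω := by positivity
      rw [e2, Real.log_pow]
      rw [show (n : ℝ) / 2 * (((2 : ℕ) : ℝ) * Real.log (2 * π / Λ / √cω)) =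
        n * Real.log (2 * π / Λ / √cω) by push_cast; ring, Real.exp_nat_mul, Real.exp_log e3]
    rw [e1, ← mul_pow]
    congr 1
    field_simp
  rw [hpw]
  have htl := tl_le hG1 hΛ0 hKpos
  have htl0 : 0 ≤ tl G Λ K := tsum_nonneg fun p => sub_nonneg.2 (wK_le hG1 hΛ0 K p)
  have htl2 : (n : ℝ) ^ 2 / 2 * tl G Λ K ≤ eG G * Λ / (16 * π ^ 2) := by
    have h5 : (n : ℝ) ^ 2 / 2 * tl G Λ K ≤
        (n : ℝ) ^ 2 / 2 * (288 * Real.exp (-G) * Λ / π ^ 2 / K) := by gcongr
    refine h5.trans ?_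
    have h6 : (n : ℝ) ^ 2 / K ≤ 1 := by
      rw [div_le_one (by exact_mod_cast hKpos), hKr]
      linarith
    calc (n : ℝ) ^ 2 / 2 * (288 * Real.exp (-G) * Λ / π ^ 2 / K) =
        144 * Real.exp (-G) * Λ / π ^ 2 * ((n : ℝ) ^ 2 / K) := by ring
      _ ≤ 144 * Real.exp (-G) * Λ / π ^ 2 * 1 := by gcongr
      _ = _ := by
        unfold eG
        ring
  have he0 : 0 ≤ eG G * Λ := by unfold eG; positivity
  have hlog : 0 ≤ Real.log K := Real.log_natCast_nonneg K
  have herr : eG G * Λ / π * (1 + Real.log K) + eG G * Λ / (16 * π ^ 2) ≤ err G Λ n := by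
    unfold err
    rw [← hKr]
    have hp3 := Real.pi_gt_three
    have a1 : eG G * Λ / π ≤ eG G * Λ / 3 := by gcongr
    have a2 : eG G * Λ / (16 * π ^ 2) ≤ eG G * Λ / 16 := by
      gcongr
      nlinarith
    have a3 : eG G * Λ / π * (1 + Real.log K) ≤ eG G * Λ / 3 * (1 + Real.log K) := by gcongr
    nlinarith
  calc (n.factorial : ℝ) * Λ ^ n * Real.exp (n * a0 - (n : ℝ) * (n - 1) / 2 * (uG G Λ - tl G Λ K) -
        (n : ℝ) / 2 * ∑' p, wK G Λ K p + E) =
      (n.factorial : ℝ) * Λ ^ n * Real.exp ((n : ℝ) / 2 * Real.log ((2 * π / Λ) ^ 2 / cω) +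
        (n * a0 - (n : ℝ) ^ 2 / 2 * uG G Λ - (n : ℝ) / 2 * RG G 0 + Q + 7 / 12 * Λ +
        (eG G * Λ / π * (1 + Real.log K) + (n : ℝ) ^ 2 / 2 * tl G Λ K))) := by
        congr 2
        rw [hw, hE]
        have e : Real.log ((2 * π / Λ) ^ 2 / cω) = uG G Λ - ∑' p, wG G Λ p + RG G 0 := by linarith
        rw [e]
        ring
    _ ≤ (n.factorial : ℝ) * Λ ^ n * Real.exp ((n : ℝ) / 2 * Real.log ((2 * π / Λ) ^ 2 / cω) +
        (n * a0 - (n : ℝ) ^ 2 / 2 * uG G Λ - (n : ℝ) / 2 * RG G 0 + Q + 7 / 12 * Λ +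
        err G Λ n)) := by
        gcongr
        linarith
    _ = _ := by
        rw [Real.exp_add]
        ring

end

end NUC62
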