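import Pool.Agent.NUC62.Bound
import Pool.Agent.NUWC.Energy

/-! Bridge between `NUWC.uk` and `NUC62.uh`. -/

open MeasureTheory Set Filter Topology
open scoped Real

namespace NUC62

open NUMF NUWC

noncomputable section

theorem Vh_eq {k : ℝ} (hk : 0 < k) : Vh k =
    2 * π * ((ck1 k - 1) * (2 * ck1 k - 1) * (2 * ck1 k + 1) ^ 2 / (k * sk k)) := by
  have h1 := num_div hk
  have hs := (sk_pos hk).ne'
  have e1 : num (4 * l) k = (ck1 k - 1) * (2 * ck1 k - 1) * (2 * ck1 k + 1) ^ 2 := by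
    unfold num
    rw [cosh4, cosh2, cosh3]
    unfold ck1
    ring
  unfold Vh
  rw [← h1, e1]
  field_simp

theorem uk_eq_uh {G κ : ℝ} (hG : 1 ≤ G) (hκ : 0 < κ) : uk G κ = uh G κ := by
  obtain ⟨i1, e1⟩ := V_forward hκ
  have i2 := (RG_fubini hG κ).1
  have e2 := RG_forward hG hκ.ne'
  unfold uk UG uh
  simp_rw [sub_mul]
  rw [integral_sub i1 i2, e1, e2, Vh_eq hκ]

theorem uk_zero {G : ℝ} (hG : 1 ≤ G) : uk G 0 = 9 * π ^ 2 / 32 - RGz G := by
  obtain ⟨i1, e1⟩ := V_integral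
  unfold uk UG
  simp only [zero_mul, Real.cos_zero, mul_one]
  rw [integral_sub i1 (RG_integrable hG), e1, RG_zero hG]

theorem uk_zero_uG {G L : ℝ} (hG : 1 ≤ G) : uk G 0 / L = uG G L := by
  rw [uk_zero hG, uG]

theorem kp_succ (L : ℝ) (p : ℕ) : NUWC.kp L (p + 1) = NUC62.kp L p := by
  unfold NUWC.kp NUC62.kp
  push_cast
  ring

end

end NUC62
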