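import Pool.Agent.NUP.MF.Const

/-!
The relative symbol `R = U_+ / U_0` and the one loop constant of the one component gas:
`prod_p R(p δ)^{-1} <= exp (7 Λ / 12)`, `δ = π² / (4 Λ)`.
-/

open MeasureTheory Set Filter Topology

namespace NUC62

noncomputable section

/-- the relative symbol as a function of `y = π k / 8` -/
def R (y : ℝ) : ℝ := Real.tanh (y / 2) * (1 + 1 / (2 * Real.cosh (2 * y))) *
  (1 + 1 / (2 * Real.cosh y))

/-- `log R` as a function of `c = cosh y` -/
def phi (c : ℝ) : ℝ := Real.log (c - 1) / 2 - Real.log (c + 1) / 2 + Real.log (4 * c ^ 2 - 1) -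
  Real.log (2 * c ^ 2 - 1) + Real.log (2 * c + 1) - Real.log c - 2 * Real.log 2

theorem R_pos {y : ℝ} (hy : 0 < y) : 0 < R y := by
  unfold R
  have h1 : 0 < Real.tanh (y / 2) := by
    rw [Real.tanh_eq_sinh_div_cosh]
    exact div_pos (Real.sinh_pos_iff.2 (by linarith)) (Real.cosh_pos _)
  have h2 := Real.cosh_pos (2 * y)
  have h3 := Real.cosh_pos y
  positivity

theorem log_tanh_half {y : ℝ} (hy : 0 < y) : Real.log (Real.tanh (y / 2)) =
    Real.log (Real.cosh y - 1) / 2 - Real.log (Real.cosh y + 1) / 2 := by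
  have h1 : 0 < Real.sinh (y / 2) := Real.sinh_pos_iff.2 (by linarith)
  have h2 := Real.cosh_pos (y / 2)
  have e1 : Real.cosh y - 1 = 2 * Real.sinh (y / 2) ^ 2 := by
    have := Real.cosh_two_mul (y / 2)
    rw [show 2 * (y / 2) = y by ring] at this
    rw [this, Real.cosh_sq]; ring
  have e2 : Real.cosh y + 1 = 2 * Real.cosh (y / 2) ^ 2 := by
    have := Real.cosh_two_mul (y / 2)
    rw [show 2 * (y / 2) = y by ring] at this
    have h3 := Real.cosh_sq (y / 2)
    rw [this]; linarith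
  rw [Real.tanh_eq_sinh_div_cosh, Real.log_div h1.ne' h2.ne', e1, e2,
    Real.log_mul two_ne_zero (by positivity), Real.log_mul two_ne_zero (by positivity),
    Real.log_pow, Real.log_pow]
  push_cast
  ring

theorem log_R {y : ℝ} (hy : 0 < y) : Real.log (R y) = phi (Real.cosh y) := by
  have hc : 1 < Real.cosh y := Real.one_lt_cosh.2 hy.ne'
  have h1 : 0 < Real.tanh (y / 2) := by
    rw [Real.tanh_eq_sinh_div_cosh]
    exact div_pos (Real.sinh_pos_iff.2 (by linarith)) (Real.cosh_pos _)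
  have h2 : Real.cosh (2 * y) = 2 * Real.cosh y ^ 2 - 1 := by
    rw [Real.cosh_two_mul]
    have := Real.cosh_sq y
    linarith
  set c := Real.cosh y with hcdef
  have e1 : 1 + 1 / (2 * (2 * c ^ 2 - 1)) = (4 * c ^ 2 - 1) / (2 * (2 * c ^ 2 - 1)) := by
    have : (2 * c ^ 2 - 1) ≠ 0 := by nlinarith
    field_simp
    ring
  have e2 : 1 + 1 / (2 * c) = (2 * c + 1) / (2 * c) := by
    have : c ≠ 0 := by linarith
    field_simp
  have p1 : 0 < 4 * c ^ 2 - 1 := by nlinarith
  have p2 : 0 < 2 * c ^ 2 - 1 := by nlinarith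
  have p3 : 0 < 2 * c + 1 := by linarith
  have p4 : 0 < c := by linarith
  rw [R, h2, e1, e2, Real.log_mul (by positivity) (by positivity), Real.log_mul h1.ne'
    (by positivity), log_tanh_half hy, Real.log_div p1.ne' (by positivity),
    Real.log_div p3.ne' (by positivity), Real.log_mul two_ne_zero p2.ne',
    Real.log_mul two_ne_zero p4.ne', phi]
  ring

theorem phi_deriv {c : ℝ} (hc : 1 < c) : HasDerivAt phi
    (1 / (c - 1) / 2 - 1 / (c + 1) / 2 + 8 * c / (4 * c ^ 2 - 1) - 4 * c / (2 * c ^ 2 - 1) +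
      2 / (2 * c + 1) - 1 / c) c := by
  have p1 : 4 * c ^ 2 - 1 ≠ 0 := by nlinarith
  have p2 : 2 * c ^ 2 - 1 ≠ 0 := by nlinarith
  have p3 : 2 * c + 1 ≠ 0 := by linarith
  have p4 : c ≠ 0 := by linarith
  have h1 := (((hasDerivAt_id c).sub_const 1).log (by simp; linarith)).div_const 2
  have h2 := (((hasDerivAt_id c).add_const 1).log (by simp; linarith)).div_const 2
  have h3 := ((((hasDerivAt_id c).pow 2).const_mul 4).sub_const 1).log (by simpa using p1)
  have h4 := ((((hasDerivAt_id c).pow 2).const_mul 2).sub_const 1).log (by simpa using p2)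
  have h5 := (((hasDerivAt_id c).const_mul 2).add_const 1).log (by simpa using p3)
  have h6 := (hasDerivAt_id c).log p4
  have := (((((h1.sub h2).add h3).sub h4).add h5).sub h6).sub_const (2 * Real.log 2)
  refine this.congr_deriv ?_
  simp
  ring

theorem phi_mono : MonotoneOn phi (Ioi 1) := by
  apply monotoneOn_of_deriv_nonneg (convex_Ioi 1)
  · intro c hc
    exact (phi_deriv hc).continuousAt.continuousWithinAt
  · rw [interior_Ioi]
    intro c hc
    exact (phi_deriv hc).differentiableAt.differentiableWithinAt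
  · rw [interior_Ioi]
    intro c hc
    have hc' : 1 < c := hc
    rw [(phi_deriv hc').deriv]
    have p0 : 0 < c - 1 := by linarith
    have p1 : 0 < 4 * c ^ 2 - 1 := by nlinarith
    have p2 : 0 < 2 * c ^ 2 - 1 := by nlinarith
    have p3 : 0 < 2 * c + 1 := by linarith
    have p4 : 0 < c := by linarith
    have p5 : 0 < c + 1 := by linarith
    have e : 1 / (c - 1) / 2 - 1 / (c + 1) / 2 + 8 * c / (4 * c ^ 2 - 1) -
        4 * c / (2 * c ^ 2 - 1) + 2 / (2 * c + 1) - 1 / c =
        1 / ((c - 1) * (c + 1)) - 4 * c / ((4 * c ^ 2 - 1) * (2 * c ^ 2 - 1)) -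
          1 / (c * (2 * c + 1)) := by
      have q0 := p0.ne'
      have q1 := p1.ne'
      have q2 := p2.ne'
      have q3 := p3.ne'
      have q4 := p4.ne'
      have q5 := p5.ne'
      rw [eq_sub_iff_add_eq, eq_sub_iff_add_eq]
      have f1 : 1 / ((c - 1) * (c + 1)) = 1 / (c - 1) / 2 - 1 / (c + 1) / 2 := by
        field_simp
        ring
      have f2 : 4 * c / ((4 * c ^ 2 - 1) * (2 * c ^ 2 - 1)) =
          4 * c / (2 * c ^ 2 - 1) - 8 * c / (4 * c ^ 2 - 1) := by
        rw [div_sub_div _ _ q2 q1, div_eq_div_iff (mul_ne_zero q1 q2) (mul_ne_zero q2 q1)]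
        ring
      have f3 : 1 / (c * (2 * c + 1)) = 1 / c - 2 / (2 * c + 1) := by
        rw [div_sub_div _ _ q4 q3, div_eq_div_iff (mul_ne_zero q4 q3) (mul_ne_zero q4 q3)]
        ring
      rw [f1, f2, f3]
      ring
    rw [e]
    have e1 : 4 * c / ((4 * c ^ 2 - 1) * (2 * c ^ 2 - 1)) ≤ 1 / (2 * ((c - 1) * (c + 1))) := by
      rw [div_le_div_iff₀ (by positivity) (by positivity)]
      nlinarith [mul_pos p0 p4, mul_pos p0 p0, mul_pos (mul_pos p0 p0) p4, pow_pos p0 3,
        pow_pos p0 4]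
    have e2 : 1 / (c * (2 * c + 1)) ≤ 1 / (2 * ((c - 1) * (c + 1))) := by
      apply one_div_le_one_div_of_le (by positivity)
      nlinarith
    have e3 : 1 / ((c - 1) * (c + 1)) = 1 / (2 * ((c - 1) * (c + 1))) +
        1 / (2 * ((c - 1) * (c + 1))) := by
      field_simp
      ring
    rw [e3]
    linarith

theorem cosh_ell {a y : ℝ} (hy : 0 < y) :
    Real.log (2 * Real.cosh y + 2 * Real.cos a) = y + NUMF.ell a y := NUMF.log_two_cosh_add a hy

/-- minus the logarithm of the relative symbol -/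
def gR (y : ℝ) : ℝ := -Real.log (R y)

theorem gR_anti : AntitoneOn gR (Ioi 0) := by
  intro a ha b hb hab
  have ha' : 0 < a := ha
  have hb' : 0 < b := hb
  unfold gR
  rw [log_R ha', log_R hb']
  have h1 : Real.cosh a ≤ Real.cosh b := by
    rw [Real.cosh_le_cosh, abs_of_pos ha', abs_of_pos hb']
    exact hab
  have := phi_mono (show Real.cosh a ∈ Ioi (1:ℝ) from Real.one_lt_cosh.2 ha'.ne')
    (show Real.cosh b ∈ Ioi (1:ℝ) from Real.one_lt_cosh.2 hb'.ne') h1
  linarith

theorem gR_eq {y : ℝ} (hy : 0 < y) : gR y = (NUMF.ell 0 y - NUMF.ell Real.pi y) / 2 -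
    (NUMF.ell (Real.pi / 3) (2 * y) - NUMF.ell (Real.pi / 2) (2 * y)) -
    (NUMF.ell (Real.pi / 3) y - NUMF.ell (Real.pi / 2) y) := by
  have hc : 1 < Real.cosh y := Real.one_lt_cosh.2 hy.ne'
  have hc2 := Real.cosh_pos (2 * y)
  have hy2 : 0 < 2 * y := by linarith
  have e0 := cosh_ell (a := 0) hy
  have e1 := cosh_ell (a := Real.pi) hy
  have e2 := cosh_ell (a := Real.pi / 3) hy
  have e3 := cosh_ell (a := Real.pi / 2) hy
  have e4 := cosh_ell (a := Real.pi / 3) hy2
  have e5 := cosh_ell (a := Real.pi / 2) hy2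
  rw [Real.cos_zero] at e0
  rw [Real.cos_pi] at e1
  rw [Real.cos_pi_div_three] at e2 e4
  rw [Real.cos_pi_div_two] at e3 e5
  have h1 : 0 < Real.tanh (y / 2) := by
    rw [Real.tanh_eq_sinh_div_cosh]
    exact div_pos (Real.sinh_pos_iff.2 (by linarith)) (Real.cosh_pos _)
  have f1 : 1 + 1 / (2 * Real.cosh (2 * y)) = (2 * Real.cosh (2 * y) + 2 * (1 / 2)) /
      (2 * Real.cosh (2 * y) + 2 * 0) := by
    field_simp
    ring
  have f2 : 1 + 1 / (2 * Real.cosh y) = (2 * Real.cosh y + 2 * (1 / 2)) /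
      (2 * Real.cosh y + 2 * 0) := by
    field_simp
    ring
  have g1 : Real.log (2 * Real.cosh y + 2 * 1) = Real.log 2 + Real.log (Real.cosh y + 1) := by
    rw [← Real.log_mul two_ne_zero (by linarith)]
    congr 1
    ring
  have g2 : Real.log (2 * Real.cosh y + 2 * -1) = Real.log 2 + Real.log (Real.cosh y - 1) := by
    rw [← Real.log_mul two_ne_zero (by linarith)]
    congr 1
    ring
  unfold gR R
  rw [f1, f2, Real.log_mul (by positivity) (by positivity), Real.log_mul h1.ne' (by positivity),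
    Real.log_div (by positivity) (by positivity), Real.log_div (by positivity) (by positivity),
    log_tanh_half hy, e2, e3, e4, e5]
  rw [g1] at e0
  rw [g2] at e1
  linarith

theorem gR_int : IntegrableOn gR (Ioi 0) ∧ ∫ y in Ioi (0 : ℝ), gR y = 7 * Real.pi ^ 2 / 48 := by
  have hpi := Real.pi_pos
  have i0 := NUMF.ell_integrable 0
  have i1 := NUMF.ell_integrable Real.pi
  have i2 := NUMF.ell_integrable (Real.pi / 3)
  have i3 := NUMF.ell_integrable (Real.pi / 2)
  have i4 := NUMF.ell2_integrable (Real.pi / 3)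
  have i5 := NUMF.ell2_integrable (Real.pi / 2)
  have heq : EqOn gR (fun y => (NUMF.ell 0 y - NUMF.ell Real.pi y) / 2 -
    (NUMF.ell (Real.pi / 3) (2 * y) - NUMF.ell (Real.pi / 2) (2 * y)) -
    (NUMF.ell (Real.pi / 3) y - NUMF.ell (Real.pi / 2) y)) (Ioi 0) := fun y hy => gR_eq hy
  have hI : IntegrableOn (fun y => (NUMF.ell 0 y - NUMF.ell Real.pi y) / 2 -
    (NUMF.ell (Real.pi / 3) (2 * y) - NUMF.ell (Real.pi / 2) (2 * y)) -
    (NUMF.ell (Real.pi / 3) y - NUMF.ell (Real.pi / 2) y)) (Ioi 0) :=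
    (((i0.sub i1).div_const 2).sub (i4.sub i5)).sub (i2.sub i3)
  refine ⟨hI.congr_fun heq.symm measurableSet_Ioi, ?_⟩
  rw [setIntegral_congr_fun measurableSet_Ioi heq]
  have s1 := integral_sub (((i0.sub i1).div_const 2).sub (i4.sub i5)) (i2.sub i3)
  have s2 := integral_sub ((i0.sub i1).div_const 2) (i4.sub i5)
  have s3 := integral_sub i0 i1
  have s4 := integral_sub i4 i5
  have s5 := integral_sub i2 i3
  have s6 : ∫ y in Ioi (0 : ℝ), (NUMF.ell 0 y - NUMF.ell Real.pi y) / 2 =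
    (∫ y in Ioi (0 : ℝ), (NUMF.ell 0 y - NUMF.ell Real.pi y)) / 2 := integral_div _ _
  simp only [Pi.sub_apply] at s1 s2 s3 s4 s5
  rw [s1, s2, s6, s3, s4, s5, NUMF.integral_ell2, NUMF.integral_ell2]
  have l0 := NUMF.L_eq (a := 0) (by rw [abs_zero]; exact hpi.le)
  have l1 := NUMF.L_eq (a := Real.pi) (by rw [abs_of_pos hpi])
  have l2 := NUMF.L_eq (a := Real.pi / 3) (by rw [abs_of_pos (by positivity)]; linarith)
  have l3 := NUMF.L_eq (a := Real.pi / 2) (by rw [abs_of_pos (by positivity)]; linarith)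
  change (NUMF.L 0 - NUMF.L Real.pi) / 2 - (NUMF.L (Real.pi / 3) / 2 -
    NUMF.L (Real.pi / 2) / 2) - (NUMF.L (Real.pi / 3) - NUMF.L (Real.pi / 2)) = _
  rw [l0, l1, l2, l3]
  ring

theorem gR_nonneg {y : ℝ} (hy : 0 < y) : 0 ≤ gR y := by
  by_contra h
  push Not at h
  -- then `gR ≤ gR y < 0` on `(y, ∞)`, not integrable
  have h1 : IntegrableOn gR (Ioi y) := gR_int.1.mono_set (Ioi_subset_Ioi hy.le)
  have h2 : IntegrableOn (fun _ : ℝ => gR y) (Ioi y) := by
    refine Integrable.mono h1 aestronglyMeasurable_const ?_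
    filter_upwards [ae_restrict_mem measurableSet_Ioi] with x hx
    have hx' : y < x := hx
    have h3 := gR_anti (show y ∈ Ioi (0:ℝ) from hy) (show x ∈ Ioi (0:ℝ) from hy.trans hx') hx'.le
    rw [Real.norm_eq_abs, Real.norm_eq_abs, abs_of_neg h, abs_of_neg (h3.trans_lt h)]
    linarith
  rw [integrableOn_const_iff (by simp)] at h2
  rcases h2 with h2 | h2
  · simp at h2
    exact h.ne h2
  · simp at h2

/-- decreasing Riemann sum -/
theorem sum_gR {δ : ℝ} (hδ : 0 < δ) (K : ℕ) :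
    ∑ p ∈ Finset.range K, gR (((p : ℝ) + 1) * δ) ≤ 7 * Real.pi ^ 2 / 48 / δ := by
  rw [le_div_iff₀ hδ, Finset.sum_mul]
  have h1 : ∀ K : ℕ, ∑ p ∈ Finset.range K, gR (((p : ℝ) + 1) * δ) * δ ≤
      ∫ y in Ioc (0 : ℝ) (K * δ), gR y := by
    intro K
    induction K with
    | zero => simp
    | succ K ih =>
      rw [Finset.sum_range_succ]
      have hK : (K : ℝ) * δ ≤ ((K + 1 : ℕ) : ℝ) * δ := by
        push_cast
        nlinarith
      have hK0 : (0 : ℝ) ≤ K * δ := by positivity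
      have hu : Ioc (0 : ℝ) (((K + 1 : ℕ) : ℝ) * δ) = Ioc 0 (K * δ) ∪
          Ioc (K * δ) (((K + 1 : ℕ) : ℝ) * δ) := (Ioc_union_Ioc_eq_Ioc hK0 hK).symm
      have j1 : IntegrableOn gR (Ioc 0 (K * δ)) := gR_int.1.mono_set Ioc_subset_Ioi_self
      have j2 : IntegrableOn gR (Ioc (K * δ) (((K + 1 : ℕ) : ℝ) * δ)) :=
        gR_int.1.mono_set fun x hx => lt_of_le_of_lt hK0 hx.1
      rw [hu, setIntegral_union (Ioc_disjoint_Ioc_of_le le_rfl) measurableSet_Ioc j1 j2]
      refine add_le_add ih ?_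
      have j3 : ∫ y in Ioc (K * δ) (((K + 1 : ℕ) : ℝ) * δ), gR (((K : ℝ) + 1) * δ) =
          gR (((K : ℝ) + 1) * δ) * δ := by
        rw [setIntegral_const, smul_eq_mul, Measure.real, Real.volume_Ioc,
          ENNReal.toReal_ofReal (by linarith), mul_comm]
        congr 1
        push_cast
        ring
      rw [← j3]
      refine setIntegral_mono_on (by
        rw [integrableOn_const_iff (by simp)]
        right
        simp) j2 measurableSet_Ioc fun x hx => ?_
      refine gR_anti (lt_of_le_of_lt hK0 hx.1) ?_ ?_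
      · have : 0 < ((K : ℝ) + 1) * δ := by positivity
        exact this
      · have := hx.2
        push_cast at this
        exact this
  refine (h1 K).trans ?_
  rw [← gR_int.2]
  exact setIntegral_mono_set gR_int.1 (by
    filter_upwards [ae_restrict_mem measurableSet_Ioi] with x hx
    exact gR_nonneg hx) (Ioc_subset_Ioi_self.eventuallyLE)

theorem R_le_one {y : ℝ} (hy : 0 < y) : R y ≤ 1 := by
  have h1 := gR_nonneg hy
  unfold gR at h1
  by_contra h
  push Not at h
  have := Real.log_pos h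
  linarith

/-- **one loop bound** -/
theorem one_loop {Λ : ℝ} (hΛ : 0 < Λ) (K : ℕ) :
    ∏ p ∈ Finset.range K, (R (((p : ℝ) + 1) * (Real.pi ^ 2 / (4 * Λ))))⁻¹ ≤
      Real.exp (7 / 12 * Λ) := by
  have hpi := Real.pi_pos
  have hδ : 0 < Real.pi ^ 2 / (4 * Λ) := by positivity
  have h1 := sum_gR hδ K
  have h2 : 7 * Real.pi ^ 2 / 48 / (Real.pi ^ 2 / (4 * Λ)) = 7 / 12 * Λ := by
    field_simp
    ring
  rw [h2] at h1
  refine le_trans (le_of_eq ?_) (Real.exp_le_exp.2 h1)
  rw [Real.exp_sum]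
  refine Finset.prod_congr rfl fun p _ => ?_
  unfold gR
  rw [Real.exp_neg, Real.exp_log (R_pos (by positivity))]

end

end NUC62
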