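import Mathlib

/-! Poisson summation for even, continuous, exponentially decaying functions. -/

open MeasureTheory Set Filter Topology Complex Asymptotics
open scoped FourierTransform Real

namespace NUC62

noncomputable section

theorem isBigO_of_exp {f : ℝ → ℝ} {C Λ : ℝ} (hΛ : 0 < Λ)
    (hb : ∀ t, |f t| ≤ C * Real.exp (-2 * |t|)) :
    (fun t : ℝ => ((f (Λ * t) : ℝ) : ℂ)) =O[cocompact ℝ] fun t : ℝ => |t| ^ (-(2 : ℝ)) := by
  have hC : 0 ≤ C := by
    have := (abs_nonneg _).trans (hb 0)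
    simpa using this
  refine IsBigO.of_bound (C / (2 * Λ ^ 2)) ?_
  have h0 : ∀ᶠ t : ℝ in cocompact ℝ, t ≠ 0 := by
    have := (isCompact_singleton (x := (0 : ℝ))).compl_mem_cocompact
    filter_upwards [this] with t ht
    simpa using ht
  filter_upwards [h0] with t ht
  have ht' : 0 < |t| := abs_pos.2 ht
  have h1 := hb (Λ * t)
  have h2 : |Λ * t| = Λ * |t| := by rw [abs_mul, abs_of_pos hΛ]
  rw [h2] at h1
  have h3 : (|t| ^ (-(2 : ℝ)) : ℝ) = (|t| ^ 2)⁻¹ := by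
    rw [Real.rpow_neg ht'.le]
    norm_num
  rw [Complex.norm_real, Real.norm_eq_abs, h3, norm_inv, norm_pow, Real.norm_eq_abs, abs_abs]
  refine h1.trans ?_
  have h4 : Real.exp (-2 * (Λ * |t|)) ≤ 1 / (2 * Λ ^ 2) * (|t| ^ 2)⁻¹ := by
    have hs : 0 < 2 * (Λ * |t|) := by positivity
    have h5 := Real.quadratic_le_exp_of_nonneg hs.le
    have h6 : (2 * (Λ * |t|)) ^ 2 / 2 ≤ Real.exp (2 * (Λ * |t|)) := by nlinarith
    rw [show -2 * (Λ * |t|) = -(2 * (Λ * |t|)) by ring, Real.exp_neg]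
    have h7 : 1 / (2 * Λ ^ 2) * (|t| ^ 2)⁻¹ = ((2 * (Λ * |t|)) ^ 2 / 2)⁻¹ := by
      field_simp
    rw [h7]
    exact inv_anti₀ (by positivity) h6
  calc C * Real.exp (-2 * (Λ * |t|)) ≤ C * (1 / (2 * Λ ^ 2) * (|t| ^ 2)⁻¹) := by gcongr
    _ = _ := by ring

theorem fourier_scaled {f : ℝ → ℝ} (hi : Integrable f) (he : ∀ t, f (-t) = f t) {Λ : ℝ}
    (hΛ : 0 < Λ) (n : ℤ) : 𝓕 (fun t : ℝ => ((f (Λ * t) : ℝ) : ℂ)) (n : ℝ) =
      ((1 / Λ * ∫ t, f t * Real.cos (2 * π * n / Λ * t) : ℝ) : ℂ) := by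
  rw [Real.fourier_real_eq_integral_exp_smul]
  have h1 : (∫ v : ℝ, Complex.exp (((-2 * π * v * (n : ℝ) : ℝ) : ℂ) * I) • ((f (Λ * v) : ℝ) : ℂ)) =
      ∫ v : ℝ, (fun s : ℝ => Complex.exp (((-2 * π * n / Λ * s : ℝ) : ℂ) * I) * ((f s : ℝ) : ℂ))
        (Λ * v) := by
    congr 1
    funext v
    simp only [smul_eq_mul]
    congr 3
    have hΛ' : Λ ≠ 0 := hΛ.ne'
    rw [show -2 * π * n / Λ * (Λ * v) = -2 * π * v * n by field_simp]
  rw [h1, Measure.integral_comp_mul_left (fun s : ℝ =>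
    Complex.exp (((-2 * π * n / Λ * s : ℝ) : ℂ) * I) * ((f s : ℝ) : ℂ)) Λ, abs_inv,
    abs_of_pos hΛ]
  have h2 : ∀ s : ℝ, Complex.exp (((-2 * π * n / Λ * s : ℝ) : ℂ) * I) * ((f s : ℝ) : ℂ) =
      ((f s * Real.cos (2 * π * n / Λ * s) : ℝ) : ℂ) +
        ((f s * Real.sin (-2 * π * n / Λ * s) : ℝ) : ℂ) * I := by
    intro s
    rw [Complex.exp_mul_I, ← Complex.ofReal_cos, ← Complex.ofReal_sin,
      show -2 * π * n / Λ * s = -(2 * π * n / Λ * s) by ring, Real.cos_neg]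
    push_cast
    ring
  have i1 : Integrable fun s => f s * Real.cos (2 * π * n / Λ * s) :=
    hi.mul_bdd (c := 1) (by fun_prop) (ae_of_all _ fun s => Real.abs_cos_le_one _)
  have i2 : Integrable fun s => f s * Real.sin (-2 * π * n / Λ * s) :=
    hi.mul_bdd (c := 1) (by fun_prop) (ae_of_all _ fun s => Real.abs_sin_le_one _)
  have h3 : ∫ s, f s * Real.sin (-2 * π * n / Λ * s) = 0 := by
    have h4 : ∫ s, f s * Real.sin (-2 * π * n / Λ * s) =
        ∫ s, -(f s * Real.sin (-2 * π * n / Λ * s)) := by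
      rw [← integral_neg_eq_self]
      congr 1
      funext s
      rw [he, show -2 * π * n / Λ * -s = -(-2 * π * n / Λ * s) by ring, Real.sin_neg]
      ring
    rw [integral_neg] at h4
    linarith
  have j1 : Integrable fun s : ℝ => ((f s * Real.cos (2 * π * n / Λ * s) : ℝ) : ℂ) := i1.ofReal
  have j2' : Integrable fun s : ℝ => ((f s * Real.sin (-2 * π * n / Λ * s) : ℝ) : ℂ) :=
    i2.ofReal
  have j2 : Integrable fun s : ℝ => ((f s * Real.sin (-2 * π * n / Λ * s) : ℝ) : ℂ) * I :=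
    j2'.mul_const I
  rw [integral_congr_ae (ae_of_all _ h2), integral_add j1 j2, integral_mul_const,
    integral_complex_ofReal, integral_complex_ofReal, h3]
  simp

theorem poisson_even {f : ℝ → ℝ} (hc : Continuous f) (hi : Integrable f)
    (he : ∀ t, f (-t) = f t) {C : ℝ} (hb : ∀ t, |f t| ≤ C * Real.exp (-2 * |t|)) {Λ : ℝ}
    (hΛ : 0 < Λ) (hs : Summable fun p : ℤ => ∫ t, f t * Real.cos (2 * π * p / Λ * t)) (x : ℝ) :
    ∑' n : ℤ, f (x + n * Λ) =
      1 / Λ * ∑' p : ℤ, (∫ t, f t * Real.cos (2 * π * p / Λ * t)) *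
        Real.cos (2 * π * p / Λ * x) := by
  have hF := fun n : ℤ => fourier_scaled hi he hΛ n
  have h1 := Real.tsum_eq_tsum_fourier_of_rpow_decay_of_summable
    (f := fun t : ℝ => ((f (Λ * t) : ℝ) : ℂ)) (by fun_prop) one_lt_two (isBigO_of_exp hΛ hb) (by
      simp_rw [hF]
      exact Complex.ofRealCLM.summable (hs.mul_left (1 / Λ))) (x / Λ)
  simp_rw [hF] at h1
  have h2 := congrArg Complex.re h1
  have h3 : (∑' n : ℤ, ((f (Λ * (x / Λ + n)) : ℝ) : ℂ)).re = ∑' n : ℤ, f (x + n * Λ) := by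
    rw [← Complex.ofReal_tsum, Complex.ofReal_re]
    congr 1
    funext n
    congr 1
    field_simp
  have hsum : Summable fun n : ℤ => ((1 / Λ * ∫ t, f t * Real.cos (2 * π * n / Λ * t) : ℝ) : ℂ) *
      fourier n ((x / Λ : ℝ) : UnitAddCircle) := by
    refine Summable.of_norm ?_
    refine (hs.mul_left (1 / Λ)).norm.congr fun n => ?_
    rw [norm_mul (_ : ℂ), Complex.norm_real]
    have : ‖fourier n ((x / Λ : ℝ) : UnitAddCircle)‖ = 1 := by
      rw [fourier_coe_apply]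
      rw [show (2 * π * I * n * ((x / Λ : ℝ) : ℂ) / ((1 : ℝ) : ℂ)) =
        ((2 * π * n * (x / Λ) : ℝ) : ℂ) * I by push_cast; ring, Complex.norm_exp_ofReal_mul_I]
    rw [this, mul_one]
  rw [h3] at h2
  rw [h2, Complex.re_tsum hsum, ← tsum_mul_left]
  congr 1
  funext n
  rw [Complex.re_ofReal_mul, fourier_coe_apply,
    show (2 * π * I * n * ((x / Λ : ℝ) : ℂ) / ((1 : ℝ) : ℂ)) =
        ((2 * π * n / Λ * x : ℝ) : ℂ) * I by push_cast; ring, Complex.exp_ofReal_mul_I_re]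
  ring

end

end NUC62
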