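import Pool.Agent.NUP.MF.Forward
import Pool.Agent.NUC62.Pois

/-!
Periodisation of the kernel `U_+ = NUMF.V` over the circle of length `Λ`.
-/

open MeasureTheory Set Filter Topology
open scoped Real

namespace NUC62

open NUMF

noncomputable section

/-- lower bound of the argument of the logarithm -/
theorem arg_ge' {a : ℝ} (t : ℝ) : Real.cosh (2 * t) * (1 + min 0 (Real.cos (2 * a))) ≤
    Real.cosh (2 * t) + Real.cos (2 * a) := by
  have h1 := Real.one_le_cosh (2 * t)
  rcases le_total 0 (Real.cos (2 * a)) with h | h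
  · rw [min_eq_left h]; linarith
  · rw [min_eq_right h]; nlinarith

theorem cosh_ge (t : ℝ) : Real.exp (2 * |t|) / 2 ≤ Real.cosh (2 * t) := by
  rw [← Real.cosh_abs (2 * t), abs_mul, abs_two, Real.cosh_eq]
  have := Real.exp_pos (-(2 * |t|))
  linarith

theorem dpos {a : ℝ} (ha : |a| < π / 2) : 0 < 1 + min 0 (Real.cos (2 * a)) := by
  have h1 : -1 < Real.cos (2 * a) := by
    have h2 : Real.cos (2 * a) = 2 * Real.cos a ^ 2 - 1 := Real.cos_two_mul a
    have h3 : 0 < Real.cos a := Real.cos_pos_of_mem_Ioo ⟨by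
      have := (abs_lt.1 ha).1; linarith, (abs_lt.1 ha).2⟩
    have : 0 < Real.cos a ^ 2 := by positivity
    linarith
  rcases le_total 0 (Real.cos (2 * a)) with h | h
  · rw [min_eq_left h]; norm_num
  · rw [min_eq_right h]; linarith

theorem arg_pos' {a : ℝ} (ha : |a| < π / 2) (t : ℝ) :
    0 < Real.cosh (2 * t) + Real.cos (2 * a) :=
  lt_of_lt_of_le (mul_pos (Real.cosh_pos _) (dpos ha)) (arg_ge' t)

theorem h_cont {a : ℝ} (ha : |a| < π / 2) : Continuous fun t => h t a := by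
  unfold h
  exact Continuous.log (by fun_prop) fun t => (arg_pos' ha t).ne'

theorem h_sub_le {a b : ℝ} (ha : |a| < π / 2) (hb : |b| < π / 2) :
    ∃ C, ∀ t, |h t a - h t b| ≤ C * Real.exp (-2 * |t|) := by
  set δ := min (1 + min 0 (Real.cos (2 * a))) (1 + min 0 (Real.cos (2 * b))) with hδ
  have hδ0 : 0 < δ := lt_min (dpos ha) (dpos hb)
  refine ⟨4 / δ, fun t => ?_⟩
  have hc := cosh_ge t
  have hE := Real.exp_pos (2 * |t|)
  have e0 : Real.exp (-2 * |t|) = (Real.exp (2 * |t|))⁻¹ := by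
    rw [← Real.exp_neg]; congr 1; ring
  have key : ∀ a b : ℝ, |a| < π / 2 → |b| < π / 2 → δ ≤ 1 + min 0 (Real.cos (2 * b)) →
      h t a - h t b ≤ 4 / δ * Real.exp (-2 * |t|) := by
    intro a b ha hb hd
    have p1 := arg_pos' ha t
    have p2 := arg_pos' hb t
    have h1 : h t a - h t b = Real.log ((Real.cosh (2 * t) + Real.cos (2 * a)) /
        (Real.cosh (2 * t) + Real.cos (2 * b))) := by
      rw [Real.log_div p1.ne' p2.ne']
      rfl
    have h2 : Real.exp (2 * |t|) / 2 * δ ≤ Real.cosh (2 * t) + Real.cos (2 * b) :=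
      le_trans (mul_le_mul hc hd hδ0.le (Real.cosh_pos _).le) (arg_ge' t)
    have h3 := Real.log_le_sub_one_of_pos (div_pos p1 p2)
    rw [h1]
    refine h3.trans ?_
    have h4 : (Real.cosh (2 * t) + Real.cos (2 * a)) / (Real.cosh (2 * t) + Real.cos (2 * b)) - 1 =
        (Real.cos (2 * a) - Real.cos (2 * b)) / (Real.cosh (2 * t) + Real.cos (2 * b)) := by
      rw [div_sub_one p2.ne']
      congr 1
      ring
    rw [h4, e0]
    have h5 : Real.cos (2 * a) - Real.cos (2 * b) ≤ 2 := by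
      have := Real.cos_le_one (2 * a)
      have := Real.neg_one_le_cos (2 * b)
      linarith
    calc (Real.cos (2 * a) - Real.cos (2 * b)) / (Real.cosh (2 * t) + Real.cos (2 * b)) ≤
        2 / (Real.cosh (2 * t) + Real.cos (2 * b)) := by gcongr
      _ ≤ 2 / (Real.exp (2 * |t|) / 2 * δ) := by gcongr
      _ = 4 / δ * (Real.exp (2 * |t|))⁻¹ := by
        field_simp
        norm_num
  rw [abs_le]
  constructor
  · have := key b a hb ha (min_le_left _ _)
    linarith
  · exact key a b ha hb (min_le_right _ _)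

/-- regularised kernel -/
def Va (a t : ℝ) : ℝ := (h t (3 * l) - h t a) + ((h t l - h t (2 * l)) + (h t l - h t 0))

theorem l4 : 4 * l = π / 2 := by unfold l; ring

theorem Va_ell {t : ℝ} (ht : t ≠ 0) (a : ℝ) : Va a t = (ell (2 * (3 * l)) (2 * |t|) -
    ell (2 * a) (2 * |t|)) + ((ell (2 * l) (2 * |t|) - ell (2 * (2 * l)) (2 * |t|)) +
      (ell (2 * l) (2 * |t|) - ell (2 * 0) (2 * |t|))) := by
  unfold Va
  rw [hsub_ell ht, hsub_ell ht, hsub_ell ht]

theorem V_eq_Va {t : ℝ} (ht : t ≠ 0) : V t = Va (4 * l) t := by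
  have h1 := V_eq ht
  rw [log_w ht, log_g, zero_add, zero_sub, h_neg_right, show 3 * l + l = 4 * l by ring,
    show 3 * l - l = 2 * l by ring] at h1
  rw [h1, Va]
  ring

theorem Va_le {t : ℝ} (ht : t ≠ 0) (a : ℝ) : |Va a t| ≤ 6 * mell (2 * |t|) := by
  have hs : 0 < 2 * |t| := by
    have := abs_pos.2 ht
    linarith
  rw [Va_ell ht]
  have k1 := abs_ell_le (2 * (3 * l)) hs
  have k2 := abs_ell_le (2 * a) hs
  have k3 := abs_ell_le (2 * l) hs
  have k4 := abs_ell_le (2 * (2 * l)) hs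
  have k5 := abs_ell_le (2 * 0) hs
  rw [abs_le] at *
  constructor <;> linarith [k1.1, k1.2, k2.1, k2.2, k3.1, k3.2, k4.1, k4.2, k5.1, k5.2]

theorem mell_le' {s s0 : ℝ} (hs0 : 0 < s0) (hs : s0 ≤ s) :
    mell s ≤ 2 / (1 - Real.exp (-s0)) * Real.exp (-s) := by
  have h0 : Real.exp (-s0) < 1 := x_lt hs0
  have h1 : Real.exp (-s) ≤ Real.exp (-s0) := Real.exp_le_exp.2 (by linarith)
  have h2 : 0 < 1 - Real.exp (-s) := by linarith
  have h3 := Real.log_le_sub_one_of_pos (inv_pos.2 h2)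
  rw [Real.log_inv] at h3
  unfold mell
  have h4 : (1 - Real.exp (-s))⁻¹ - 1 = Real.exp (-s) / (1 - Real.exp (-s)) := by
    field_simp
    ring
  rw [h4] at h3
  have h5 : Real.exp (-s) / (1 - Real.exp (-s)) ≤ Real.exp (-s) / (1 - Real.exp (-s0)) := by
    have := Real.exp_pos (-s)
    gcongr
  calc -2 * Real.log (1 - Real.exp (-s)) = 2 * (-Real.log (1 - Real.exp (-s))) := by ring
    _ ≤ 2 * (Real.exp (-s) / (1 - Real.exp (-s0))) := by linarith
    _ = _ := by ring

theorem summable_exp_int {Λ : ℝ} (hΛ : 0 < Λ) (x : ℝ) :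
    Summable fun n : ℤ => Real.exp (-2 * |x + n * Λ|) := by
  have h1 : Summable fun n : ℕ => Real.exp (-(2 * Λ)) ^ n :=
    summable_geometric_of_lt_one (Real.exp_pos _).le (by
      rw [Real.exp_lt_one_iff]; linarith)
  have h2 : ∀ n : ℕ, Real.exp (-(2 * Λ)) ^ n = Real.exp (-2 * (n * Λ)) := by
    intro n
    rw [← Real.exp_nat_mul]
    congr 1
    ring
  refine Summable.of_nat_of_neg ?_ ?_
  · refine Summable.of_nonneg_of_le (fun n => (Real.exp_pos _).le) (fun n => ?_)
      (h1.mul_left (Real.exp (2 * |x|)))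
    rw [h2, ← Real.exp_add]
    apply Real.exp_le_exp.2
    have h3 : (n : ℝ) * Λ ≤ |x + ((n : ℤ) : ℝ) * Λ| + |x| := by
      have := abs_sub_abs_le_abs_sub ((n : ℝ) * Λ) (-x)
      rw [abs_of_nonneg (by positivity), abs_neg, sub_neg_eq_add, add_comm ((n : ℝ) * Λ) x] at this
      push_cast
      linarith
    linarith
  · refine Summable.of_nonneg_of_le (fun n => (Real.exp_pos _).le) (fun n => ?_)
      (h1.mul_left (Real.exp (2 * |x|)))
    rw [h2, ← Real.exp_add]
    apply Real.exp_le_exp.2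
    have h3 : (n : ℝ) * Λ ≤ |x + ((-(n : ℤ) : ℤ) : ℝ) * Λ| + |x| := by
      have := abs_sub_abs_le_abs_sub ((n : ℝ) * Λ) x
      rw [abs_of_nonneg (by positivity), abs_sub_comm] at this
      push_cast
      rw [show x + -(n : ℝ) * Λ = x - n * Λ by ring]
      linarith
    linarith

end

end NUC62
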