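import Pool.Agent.NUC62.Per
import Pool.Agent.NUC62.OneLoop

/-! Fourier expansion of the periodised kernel. -/

open MeasureTheory Set Filter Topology
open scoped Real

namespace NUC62

open NUMF

noncomputable section

/-- the wave numbers of the circle of length `Λ` -/
def kp (Λ : ℝ) (p : ℕ) : ℝ := 2 * π * (p + 1) / Λ

theorem kp_pos {Λ : ℝ} (hΛ : 0 < Λ) (p : ℕ) : 0 < kp Λ p := by
  unfold kp
  positivity

/-- numerator of the transform of `Va a` -/
def num (a k : ℝ) : ℝ := Real.cosh (a * k) + (Real.cosh (2 * l * k) + 1 - Real.cosh (3 * l * k) -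
  2 * Real.cosh (l * k))

theorem Va_cont {a : ℝ} (ha : |a| < π / 2) : Continuous (Va a) := by
  have hl := l_pos
  have h4 := l4
  have a3 : |3 * l| < π / 2 := by rw [abs_of_pos (by linarith)]; linarith
  have a1 : |l| < π / 2 := by rw [abs_of_pos (by linarith)]; linarith
  have a2 : |2 * l| < π / 2 := by rw [abs_of_pos (by linarith)]; linarith
  have a0 : |(0:ℝ)| < π / 2 := by rw [abs_zero]; linarith
  exact ((h_cont a3).sub (h_cont ha)).add (((h_cont a1).sub (h_cont a2)).add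
    ((h_cont a1).sub (h_cont a0)))

theorem Va_neg (a t : ℝ) : Va a (-t) = Va a t := by
  unfold Va
  simp only [h_neg_left]

theorem Va_exp {a : ℝ} (ha : |a| < π / 2) : ∃ C, ∀ t, |Va a t| ≤ C * Real.exp (-2 * |t|) := by
  have hl := l_pos
  have h4 := l4
  have a3 : |3 * l| < π / 2 := by rw [abs_of_pos (by linarith)]; linarith
  have a1 : |l| < π / 2 := by rw [abs_of_pos (by linarith)]; linarith
  have a2 : |2 * l| < π / 2 := by rw [abs_of_pos (by linarith)]; linarith
  have a0 : |(0:ℝ)| < π / 2 := by rw [abs_zero]; linarith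
  obtain ⟨C1, h1⟩ := h_sub_le a3 ha
  obtain ⟨C2, h2⟩ := h_sub_le a1 a2
  obtain ⟨C3, h3⟩ := h_sub_le a1 a0
  refine ⟨C1 + (C2 + C3), fun t => ?_⟩
  unfold Va
  refine (abs_add_le _ _).trans ?_
  have := abs_add_le (h t l - h t (2 * l)) (h t l - h t 0)
  have := h1 t
  have := h2 t
  have := h3 t
  linarith

theorem Va_forward {a k : ℝ} (ha : |a| ≤ π / 2) (hk : 0 < k) :
    Integrable (fun t => Va a t * Real.cos (k * t)) ∧
    ∫ t, Va a t * Real.cos (k * t) = 2 * π * (num a k / (k * sk k)) := by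
  have hl := l_pos
  have h4 := l4
  have a3 : |3 * l| ≤ π / 2 := by rw [abs_of_pos (by linarith)]; linarith
  have a1 : |l| ≤ π / 2 := by rw [abs_of_pos (by linarith)]; linarith
  have a2 : |2 * l| ≤ π / 2 := by rw [abs_of_pos (by linarith)]; linarith
  have a0 : |(0:ℝ)| ≤ π / 2 := by rw [abs_zero]; linarith
  obtain ⟨i1, e1⟩ := h_forward a3 ha hk
  obtain ⟨i2, e2⟩ := h_forward a1 a2 hk
  obtain ⟨i3, e3⟩ := h_forward a1 a0 hk
  have he : (fun t => Va a t * Real.cos (k * t)) = fun t => (h t (3 * l) - h t a) * Real.cos (k * t) +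
      ((h t l - h t (2 * l)) * Real.cos (k * t) + (h t l - h t 0) * Real.cos (k * t)) := by
    funext t
    unfold Va
    ring
  rw [he]
  refine ⟨i1.add (i2.add i3), ?_⟩
  have s1 := integral_add i1 (i2.add i3)
  have s2 := integral_add i2 i3
  simp only [Pi.add_apply] at s1 s2
  rw [s1, s2, e1, e2, e3, num, zero_mul, Real.cosh_zero]
  ring

theorem Va_zero {a : ℝ} (ha : |a| ≤ 4 * l) : Integrable (Va a) ∧
    ∫ t, Va a t = 2 * (a ^ 2 - 7 * l ^ 2) := by
  have hl := l_pos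
  obtain ⟨i1, e1⟩ := integral_h_sub (y := 3 * l) (y' := a) (by rw [abs_of_pos (by linarith)]; linarith) ha
  obtain ⟨i2, e2⟩ := integral_h_sub (y := l) (y' := 2 * l) (by rw [abs_of_pos (by linarith)]; linarith)
    (by rw [abs_of_pos (by linarith)]; linarith)
  obtain ⟨i3, e3⟩ := integral_h_sub (y := l) (y' := 0) (by rw [abs_of_pos (by linarith)]; linarith)
    (by rw [abs_zero]; linarith)
  refine ⟨i1.add (i2.add i3), ?_⟩
  have s1 := integral_add i1 (i2.add i3)
  have s2 := integral_add i2 i3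
  simp only [Pi.add_apply] at s1 s2
  unfold Va
  rw [s1, s2, e1, e2, e3]
  ring

/-- bound of the inverse of `sinh` -/
theorem sk_ge {Λ : ℝ} (hΛ : 0 < Λ) (p : ℕ) : (1 - Real.exp (-(π * kp Λ 0))) / 2 *
    Real.exp (π / 2 * kp Λ p) ≤ sk (kp Λ p) := by
  have hpi := Real.pi_pos
  unfold sk
  rw [Real.sinh_eq]
  have h1 : kp Λ 0 ≤ kp Λ p := by
    unfold kp
    gcongr
    simp
  have h2 : Real.exp (-(π / 2 * kp Λ p)) = Real.exp (-(π * kp Λ p)) * Real.exp (π / 2 * kp Λ p) := by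
    rw [← Real.exp_add]; congr 1; ring
  have h3 : Real.exp (-(π * kp Λ p)) ≤ Real.exp (-(π * kp Λ 0)) := by
    apply Real.exp_le_exp.2
    nlinarith
  have h4 := Real.exp_pos (π / 2 * kp Λ p)
  rw [h2]
  nlinarith

theorem summable_kexp {Λ b : ℝ} (hΛ : 0 < Λ) (hb : 0 < b) :
    Summable fun p : ℕ => Real.exp (-(b * kp Λ p)) := by
  have hpi := Real.pi_pos
  have h1 : Summable fun n : ℕ => Real.exp (-(b * (2 * π / Λ))) ^ n :=
    summable_geometric_of_lt_one (Real.exp_pos _).le (by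
      rw [Real.exp_lt_one_iff]
      have : 0 < b * (2 * π / Λ) := by positivity
      linarith)
  refine (h1.mul_left (Real.exp (-(b * (2 * π / Λ))))).congr fun p => ?_
  rw [← pow_succ', ← Real.exp_nat_mul]
  congr 1
  unfold kp
  push_cast
  ring

theorem cosh_le_exp {x y : ℝ} (h : |x| ≤ y) : Real.cosh x ≤ Real.exp y := by
  rw [← Real.cosh_abs, Real.cosh_eq]
  have h1 : Real.exp |x| ≤ Real.exp y := Real.exp_le_exp.2 h
  have h2 : Real.exp (-|x|) ≤ Real.exp y := Real.exp_le_exp.2 (by linarith [abs_nonneg x])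
  linarith

theorem num_le {a b k : ℝ} (ha : |a| ≤ b) (hb : 3 * l ≤ b) (hk : 0 < k) :
    |num a k| ≤ 6 * Real.exp (b * k) := by
  have hl := l_pos
  have e1 : Real.cosh (a * k) ≤ Real.exp (b * k) := cosh_le_exp (by
    rw [abs_mul, abs_of_pos hk]; gcongr)
  have e2 : Real.cosh (2 * l * k) ≤ Real.exp (b * k) := cosh_le_exp (by
    rw [abs_of_pos (by positivity)]
    have : 2 * l ≤ b := by linarith
    gcongr)
  have e3 : Real.cosh (3 * l * k) ≤ Real.exp (b * k) := cosh_le_exp (by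
    rw [abs_of_pos (by positivity)]; gcongr)
  have e4 : Real.cosh (l * k) ≤ Real.exp (b * k) := cosh_le_exp (by
    rw [abs_of_pos (by positivity)]
    have : l ≤ b := by linarith
    gcongr)
  have e5 : 1 ≤ Real.exp (b * k) := Real.one_le_exp (by
    have : 0 ≤ b := by linarith
    positivity)
  have c1 := Real.cosh_pos (a * k)
  have c2 := Real.cosh_pos (2 * l * k)
  have c3 := Real.cosh_pos (3 * l * k)
  have c4 := Real.cosh_pos (l * k)
  unfold num
  rw [abs_le]
  constructor <;> linarith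

/-- the coefficients for `a < π / 2` are summable -/
theorem summable_Ma {Λ a : ℝ} (hΛ : 0 < Λ) (ha : |a| < π / 2) :
    Summable fun p : ℕ => num a (kp Λ p) / (kp Λ p * sk (kp Λ p)) := by
  have hpi := Real.pi_pos
  have hl := l_pos
  have h4 := l4
  set b := max |a| (3 * l) with hb
  have hb2 : b < π / 2 := max_lt ha (by linarith)
  have h0 : 0 < 1 - Real.exp (-(π * kp Λ 0)) := by
    have : Real.exp (-(π * kp Λ 0)) < 1 := by
      rw [Real.exp_lt_one_iff]
      have := kp_pos hΛ 0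
      have : 0 < π * kp Λ 0 := by positivity
      linarith
    linarith
  refine Summable.of_norm_bounded (g := fun p => 6 / (kp Λ 0 * ((1 - Real.exp (-(π * kp Λ 0))) / 2)) *
    Real.exp (-((π / 2 - b) * kp Λ p))) ((summable_kexp hΛ (by linarith)).mul_left _) fun p => ?_
  have hk := kp_pos hΛ p
  have hk0 := kp_pos hΛ 0
  have hkk : kp Λ 0 ≤ kp Λ p := by
    unfold kp
    gcongr
    simp
  have h1 := num_le (a := a) (b := b) (k := kp Λ p) (le_max_left _ _) (le_max_right _ _) hk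
  have h2 := sk_ge hΛ p
  have h3 := sk_pos hk
  rw [norm_div, Real.norm_eq_abs, Real.norm_eq_abs, abs_of_pos (mul_pos hk h3)]
  calc |num a (kp Λ p)| / (kp Λ p * sk (kp Λ p)) ≤
      6 * Real.exp (b * kp Λ p) / (kp Λ 0 * ((1 - Real.exp (-(π * kp Λ 0))) / 2 *
        Real.exp (π / 2 * kp Λ p))) := by gcongr
    _ = _ := by
      rw [show -((π / 2 - b) * kp Λ p) = b * kp Λ p - π / 2 * kp Λ p by ring, Real.exp_sub]
      have := Real.exp_pos (π / 2 * kp Λ p)
      field_simp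

theorem even_hasSum {f : ℤ → ℝ} (he : ∀ n, f (-n) = f n) (hs : Summable fun n : ℕ => f (n + 1)) :
    HasSum f (f 0 + 2 * ∑' n : ℕ, f (n + 1)) := by
  have h1 : HasSum (fun n : ℕ => f n) (f 0 + ∑' n : ℕ, f (n + 1)) := by
    have h2 : Summable fun n : ℕ => f n := by
      have : (fun n : ℕ => f ((n : ℤ) + 1)) = fun n : ℕ => (fun m : ℕ => f m) (n + 1) := by
        funext n; push_cast; rfl
      rw [this] at hs
      exact (summable_nat_add_iff 1).1 hs
    have h3 := h2.hasSum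
    rw [h2.tsum_eq_zero_add] at h3
    simpa using h3
  have h2 : HasSum (fun n : ℕ => f (-(n + 1 : ℤ))) (∑' n : ℕ, f (n + 1)) := by
    simp_rw [he]
    exact hs.hasSum
  have := HasSum.of_nat_of_neg_add_one h1 h2
  convert this using 1
  ring

/-- Poisson for the regularised kernel -/
theorem poisson_Va {Λ a : ℝ} (hΛ : 0 < Λ) (ha : |a| < π / 2) (x : ℝ) :
    ∑' n : ℤ, Va a (x + n * Λ) = 1 / Λ * (2 * (a ^ 2 - 7 * l ^ 2)) +
      ∑' p : ℕ, 2 / ((p : ℝ) + 1) * (num a (kp Λ p) / sk (kp Λ p)) * Real.cos (kp Λ p * x) := by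
  have hpi := Real.pi_pos
  obtain ⟨C, hC⟩ := Va_exp ha
  have ha4 : |a| ≤ 4 * l := by rw [l4]; exact ha.le
  obtain ⟨hi, h0⟩ := Va_zero ha4
  have hcos : ∀ p : ℕ, ∫ t, Va a t * Real.cos (2 * π * ((p + 1 : ℤ) : ℝ) / Λ * t) =
      2 * π * (num a (kp Λ p) / (kp Λ p * sk (kp Λ p))) := by
    intro p
    have h1 := (Va_forward ha.le (kp_pos hΛ p)).2
    rw [← h1]
    congr 1
    funext t
    unfold kp
    push_cast
    rfl
  have heven : ∀ p : ℤ, ∫ t, Va a t * Real.cos (2 * π * ((-p : ℤ) : ℝ) / Λ * t) =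
      ∫ t, Va a t * Real.cos (2 * π * (p : ℝ) / Λ * t) := by
    intro p
    congr 1
    funext t
    rw [show 2 * π * ((-p : ℤ) : ℝ) / Λ * t = -(2 * π * (p : ℝ) / Λ * t) by push_cast; ring,
      Real.cos_neg]
  have hs0 : Summable fun p : ℕ => ∫ t, Va a t * Real.cos (2 * π * ((p + 1 : ℤ) : ℝ) / Λ * t) := by
    exact ((summable_Ma hΛ ha).mul_left (2 * π)).congr fun p => (hcos p).symm
  have hs : Summable fun p : ℤ => ∫ t, Va a t * Real.cos (2 * π * p / Λ * t) :=
    (even_hasSum heven hs0).summable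
  rw [poisson_even (Va_cont ha) hi (Va_neg a) hC hΛ hs x]
  have hs1 : Summable fun p : ℕ => (∫ t, Va a t * Real.cos (2 * π * ((p + 1 : ℤ) : ℝ) / Λ * t)) *
      Real.cos (2 * π * ((p + 1 : ℤ) : ℝ) / Λ * x) :=
    Summable.of_norm_bounded hs0.norm fun p => by
      rw [norm_mul]
      exact mul_le_of_le_one_right (norm_nonneg _) (Real.abs_cos_le_one _)
  have h2 := even_hasSum (f := fun p : ℤ => (∫ t, Va a t * Real.cos (2 * π * p / Λ * t)) *
      Real.cos (2 * π * p / Λ * x)) (by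
        intro n
        rw [heven, show 2 * π * ((-n : ℤ) : ℝ) / Λ * x = -(2 * π * (n : ℝ) / Λ * x) by
          push_cast; ring, Real.cos_neg]) hs1
  rw [h2.tsum_eq, mul_add]
  congr 1
  · simp [h0]
  · rw [← mul_assoc, ← tsum_mul_left]
    congr 1
    funext p
    rw [hcos]
    have e : 2 * π * ((p + 1 : ℤ) : ℝ) / Λ * x = kp Λ p * x := by
      unfold kp
      push_cast
      ring
    rw [e]
    have hk := (kp_pos hΛ p).ne'
    have hsk := (sk_pos (kp_pos hΛ p)).ne'
    have e2 : 1 / Λ * 2 * (2 * π * (num a (kp Λ p) / (kp Λ p * sk (kp Λ p)))) =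
        2 / ((p : ℝ) + 1) * (num a (kp Λ p) / sk (kp Λ p)) := by
      rw [show num a (kp Λ p) / (kp Λ p * sk (kp Λ p)) = (num a (kp Λ p) / sk (kp Λ p)) / kp Λ p by
        field_simp]
      unfold kp
      have : (p : ℝ) + 1 ≠ 0 := by positivity
      field_simp
    rw [← mul_assoc, e2]

/-- the coefficients of the pair interaction: `w_p = (2/p)(1 - R_p)` -/
def wc (Λ : ℝ) (p : ℕ) : ℝ := 2 / ((p : ℝ) + 1) * (1 - R (π * kp Λ p / 8))

/-- `R` in terms of `num` -/
theorem num_div {k : ℝ} (hk : 0 < k) : num (4 * l) k / sk k = R (π * k / 8) := by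
  have hc : 1 < ck1 k := by
    unfold ck1
    exact Real.one_lt_cosh.2 (mul_pos l_pos hk).ne'
  have e0 : Real.cosh (π * k / 8) = ck1 k := by
    unfold ck1 l
    congr 1
    ring
  have e1 : num (4 * l) k = (ck1 k - 1) * (2 * ck1 k - 1) * (2 * ck1 k + 1) ^ 2 := by
    unfold num
    rw [cosh4, cosh2, cosh3]
    unfold ck1
    ring
  have h2 : Real.cosh (2 * (π * k / 8)) = 2 * ck1 k ^ 2 - 1 := by
    rw [Real.cosh_two_mul, Real.sinh_sq, e0]
    ring
  have h3 : sk k = 4 * (2 * ck1 k ^ 2 - 1) * ck1 k * Real.sinh (π * k / 8) := by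
    unfold sk
    rw [show π / 2 * k = 2 * (2 * (π * k / 8)) by ring, Real.sinh_two_mul, Real.sinh_two_mul, h2,
      e0]
    ring
  have hs : 0 < Real.sinh (π * k / 8) := Real.sinh_pos_iff.2 (by positivity)
  have h4 : Real.tanh (π * k / 8 / 2) = (ck1 k - 1) / Real.sinh (π * k / 8) := by
    have hh : 0 < Real.sinh (π * k / 8 / 2) := Real.sinh_pos_iff.2 (by positivity)
    have hh2 := Real.cosh_pos (π * k / 8 / 2)
    have e2 : Real.sinh (π * k / 8) = 2 * Real.sinh (π * k / 8 / 2) * Real.cosh (π * k / 8 / 2) := by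
      rw [← Real.sinh_two_mul]; congr 1; ring
    have e3 : ck1 k - 1 = 2 * Real.sinh (π * k / 8 / 2) ^ 2 := by
      rw [← e0]
      have := Real.cosh_two_mul (π * k / 8 / 2)
      rw [show 2 * (π * k / 8 / 2) = π * k / 8 by ring] at this
      rw [this, Real.cosh_sq]; ring
    rw [Real.tanh_eq_sinh_div_cosh, e2, e3]
    field_simp
  unfold R
  rw [h2, h3, h4, e0, e1]
  have p2 : ck1 k ≠ 0 := by linarith
  have p3 := hs.ne'
  obtain ⟨q, hq⟩ : ∃ q, q = 2 * ck1 k ^ 2 - 1 := ⟨_, rfl⟩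
  have p1 : q ≠ 0 := by rw [hq]; nlinarith
  rw [← hq]
  have f1 : 1 + 1 / (2 * q) = (2 * ck1 k - 1) * (2 * ck1 k + 1) / (2 * q) := by
    rw [eq_div_iff (by positivity), add_mul, one_div, inv_mul_cancel₀ (by positivity), hq]
    ring
  have f2 : 1 + 1 / (2 * ck1 k) = (2 * ck1 k + 1) / (2 * ck1 k) := by
    rw [eq_div_iff (by positivity), add_mul, one_div, inv_mul_cancel₀ (by positivity)]
    ring
  rw [f1, f2]
  field_simp
  ring

end

end NUC62
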