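import Pool.Agent.NUC62.Per2

/-! The limit `a → π / 2`: Fourier expansion of the periodised kernel `U_+`. -/

open MeasureTheory Set Filter Topology
open scoped Real

namespace NUC62

open NUMF

noncomputable section

theorem hasSum_log {z : ℂ} (hz : ‖z‖ < 1) :
    HasSum (fun p : ℕ => 2 / ((p : ℝ) + 1) * (z ^ (p + 1)).re) (-2 * Real.log ‖1 - z‖) := by
  have h1 := Complex.hasSum_taylorSeries_neg_log hz
  have h2 := (hasSum_nat_add_iff' (f := fun n : ℕ => z ^ n / n) 1).2 h1
  simp only [Finset.range_one, Finset.sum_singleton, Nat.cast_zero, div_zero, sub_zero] at h2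
  have h3 := (Complex.hasSum_re h2).mul_left 2
  have e1 : (fun p : ℕ => 2 / ((p : ℝ) + 1) * (z ^ (p + 1)).re) =
      fun i : ℕ => 2 * (z ^ (i + 1) / ((i + 1 : ℕ) : ℂ)).re := by
    funext p
    have : (((p + 1 : ℕ) : ℂ)) = (((p : ℝ) + 1 : ℝ) : ℂ) := by push_cast; ring
    rw [this, Complex.div_ofReal_re]
    ring
  have e2 : -2 * Real.log ‖1 - z‖ = 2 * (-Complex.log (1 - z)).re := by
    rw [Complex.neg_re, Complex.log_re]
    ring
  rw [e1, e2]
  exact h3

/-- remainder of the coefficient after the geometric part -/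
def rem (a k : ℝ) : ℝ := (Real.exp (-(a * k)) + Real.exp (a * k - π * k)) / (2 * sk k) +
  (Real.cosh (2 * l * k) + 1 - Real.cosh (3 * l * k) - 2 * Real.cosh (l * k)) / sk k

theorem num_split {a k : ℝ} (hk : 0 < k) :
    num a k / sk k = Real.exp (-(k * (π / 2 - a))) + rem a k := by
  have hs := (sk_pos hk).ne'
  have h1 : Real.cosh (a * k) / sk k = Real.exp (-(k * (π / 2 - a))) +
      (Real.exp (-(a * k)) + Real.exp (a * k - π * k)) / (2 * sk k) := by
    have e1 : 2 * sk k = Real.exp (π / 2 * k) - Real.exp (-(π / 2 * k)) := by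
      unfold sk
      rw [Real.sinh_eq]
      ring
    have e2 : Real.exp (-(k * (π / 2 - a))) * (2 * sk k) =
        Real.exp (a * k) - Real.exp (a * k - π * k) := by
      rw [e1, mul_sub, ← Real.exp_add, ← Real.exp_add]
      congr 2 <;> ring
    have e3 : 2 * Real.cosh (a * k) = Real.exp (a * k) + Real.exp (-(a * k)) := by
      rw [Real.cosh_eq]; ring
    have h2s : 2 * sk k ≠ 0 := mul_ne_zero two_ne_zero hs
    rw [← mul_div_mul_left (Real.cosh (a * k)) (sk k) two_ne_zero, e3, eq_comm,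
      ← eq_sub_iff_add_eq, eq_comm, ← sub_div, eq_comm, eq_div_iff h2s, e2]
    ring
  rw [num, add_div, h1, rem]
  ring

theorem rem_limit {k : ℝ} (hk : 0 < k) : rem (4 * l) k = R (π * k / 8) - 1 := by
  have h1 := num_split (a := 4 * l) hk
  rw [num_div hk, l4, sub_self, mul_zero, neg_zero, Real.exp_zero] at h1
  rw [l4]
  linarith

theorem rem_le {Λ a : ℝ} (hΛ : 0 < Λ) (ha0 : 0 ≤ a) (ha : a ≤ π / 2) (p : ℕ) :
    |rem a (kp Λ p)| ≤ 6 / ((1 - Real.exp (-(π * kp Λ 0))) / 2) *
      Real.exp (-(l * kp Λ p)) := by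
  have hpi := Real.pi_pos
  have hl := l_pos
  have hk := kp_pos hΛ p
  have hk0 := kp_pos hΛ 0
  have h0 : 0 < 1 - Real.exp (-(π * kp Λ 0)) := by
    have : Real.exp (-(π * kp Λ 0)) < 1 := by
      rw [Real.exp_lt_one_iff]
      have : 0 < π * kp Λ 0 := by positivity
      linarith
    linarith
  have h2 := sk_ge hΛ p
  have hs := sk_pos hk
  set k := kp Λ p with hkdef
  have hE := Real.exp_pos (3 * l * k)
  have a1 : |(Real.exp (-(a * k)) + Real.exp (a * k - π * k))| ≤ 2 * Real.exp (3 * l * k) := by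
    have b1 : Real.exp (-(a * k)) ≤ 1 := Real.exp_le_one_iff.2 (by nlinarith)
    have b2 : Real.exp (a * k - π * k) ≤ 1 := Real.exp_le_one_iff.2 (by nlinarith)
    have b3 : 1 ≤ Real.exp (3 * l * k) := Real.one_le_exp (by positivity)
    rw [abs_of_pos (by positivity)]
    linarith
  have a2 : |Real.cosh (2 * l * k) + 1 - Real.cosh (3 * l * k) - 2 * Real.cosh (l * k)| ≤
      5 * Real.exp (3 * l * k) := by
    have e2 : Real.cosh (2 * l * k) ≤ Real.exp (3 * l * k) := cosh_le_exp (by
      rw [abs_of_pos (by positivity)]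
      have : 2 * l ≤ 3 * l := by linarith
      gcongr)
    have e3 : Real.cosh (3 * l * k) ≤ Real.exp (3 * l * k) := cosh_le_exp (by
      rw [abs_of_pos (by positivity)])
    have e4 : Real.cosh (l * k) ≤ Real.exp (3 * l * k) := cosh_le_exp (by
      rw [abs_of_pos (by positivity)]
      have : l ≤ 3 * l := by linarith
      gcongr)
    have e5 : 1 ≤ Real.exp (3 * l * k) := Real.one_le_exp (by positivity)
    have c2 := Real.cosh_pos (2 * l * k)
    have c3 := Real.cosh_pos (3 * l * k)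
    have c4 := Real.cosh_pos (l * k)
    rw [abs_le]
    constructor <;> linarith
  have hden : (1 - Real.exp (-(π * kp Λ 0))) / 2 * Real.exp (π / 2 * k) ≤ sk k := h2
  unfold rem
  calc |(Real.exp (-(a * k)) + Real.exp (a * k - π * k)) / (2 * sk k) +
      (Real.cosh (2 * l * k) + 1 - Real.cosh (3 * l * k) - 2 * Real.cosh (l * k)) / sk k| ≤
      |(Real.exp (-(a * k)) + Real.exp (a * k - π * k))| / (2 * sk k) +
      |Real.cosh (2 * l * k) + 1 - Real.cosh (3 * l * k) - 2 * Real.cosh (l * k)| / sk k := by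
        refine (abs_add_le _ _).trans ?_
        rw [abs_div, abs_div, abs_of_pos hs, abs_of_pos (by positivity : 0 < 2 * sk k)]
    _ ≤ 2 * Real.exp (3 * l * k) / (2 * sk k) + 5 * Real.exp (3 * l * k) / sk k := by gcongr
    _ = 6 * Real.exp (3 * l * k) / sk k := by
        field_simp
        ring
    _ ≤ 6 * Real.exp (3 * l * k) / ((1 - Real.exp (-(π * kp Λ 0))) / 2 * Real.exp (π / 2 * k)) := by
        gcongr
    _ = _ := by
        have e : Real.exp (-(l * k)) = Real.exp (3 * l * k) / Real.exp (π / 2 * k) := by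
          rw [← Real.exp_sub, ← l4]
          congr 1
          ring
        rw [e]
        have := Real.exp_pos (π / 2 * k)
        field_simp

theorem dist_pos {Λ x : ℝ} (hx0 : 0 < x) (hx : x < Λ) (n : ℤ) :
    min x (Λ - x) ≤ |x + n * Λ| := by
  have hΛ : 0 < Λ := hx0.trans hx
  rcases le_or_gt 0 n with h | h
  · have h1 : (0 : ℝ) ≤ n := by exact_mod_cast h
    have h2 : 0 ≤ (n : ℝ) * Λ := by positivity
    rw [abs_of_pos (by linarith)]
    exact (min_le_left _ _).trans (by linarith)
  · have h1 : (n : ℝ) ≤ -1 := by exact_mod_cast (by omega : n ≤ -1)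
    have h2 : (n : ℝ) * Λ ≤ -Λ := by nlinarith
    rw [abs_of_neg (by linarith)]
    exact (min_le_right _ _).trans (by linarith)

theorem Va_tendsto {t : ℝ} (ht : t ≠ 0) :
    Tendsto (fun a => Va a t) (𝓝[<] (π / 2)) (𝓝 (V t)) := by
  rw [V_eq_Va ht, l4]
  have h1 : ContinuousAt (fun a => h t a) (π / 2) := by
    unfold h
    apply ContinuousAt.log (by fun_prop)
    rw [show 2 * (π / 2) = π by ring, Real.cos_pi]
    have : 1 < Real.cosh (2 * t) := Real.one_lt_cosh.2 (by simpa using ht)
    linarith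
  have h2 : ContinuousAt (fun a => Va a t) (π / 2) := by
    unfold Va
    exact (continuousAt_const.sub h1).add continuousAt_const
  exact h2.tendsto.mono_left nhdsWithin_le_nhds

/-- **Fourier expansion of the periodised kernel** -/
theorem poisson_V {Λ x : ℝ} (hx0 : 0 < x) (hx : x < Λ) :
    (Summable fun n : ℤ => V (x + n * Λ)) ∧
    ∑' n : ℤ, V (x + n * Λ) = 9 * π ^ 2 / 32 / Λ -
      2 * Real.log ‖1 - Complex.exp ((2 * π * x / Λ : ℝ) * Complex.I)‖ -
      ∑' p : ℕ, wc Λ p * Real.cos (kp Λ p * x) := by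
  have hΛ : 0 < Λ := hx0.trans hx
  have hpi := Real.pi_pos
  have hl := l_pos
  set d := min x (Λ - x) with hd
  have hd0 : 0 < d := lt_min hx0 (by linarith)
  have hne : ∀ n : ℤ, x + n * Λ ≠ 0 := fun n h0 => by
    have := dist_pos hx0 hx n
    rw [h0, abs_zero] at this
    linarith
  -- domination
  set B : ℤ → ℝ := fun n => 6 * (2 / (1 - Real.exp (-(2 * d))) * Real.exp (-2 * |x + n * Λ|)) with hB
  have hBs : Summable B := ((summable_exp_int hΛ x).mul_left _).mul_left _
  have hVB : ∀ a, ∀ n : ℤ, ‖Va a (x + n * Λ)‖ ≤ B n := by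
    intro a n
    rw [Real.norm_eq_abs]
    refine (Va_le (hne n) a).trans ?_
    rw [hB]
    simp only
    have h1 := mell_le' (s0 := 2 * d) (s := 2 * |x + n * Λ|) (by linarith)
      (by linarith [dist_pos hx0 hx n])
    rw [show -(2 * |x + n * Λ|) = -2 * |x + n * Λ| by ring] at h1
    gcongr
  have hL : Tendsto (fun a => ∑' n : ℤ, Va a (x + n * Λ)) (𝓝[<] (π / 2))
      (𝓝 (∑' n : ℤ, V (x + n * Λ))) :=
    tendsto_tsum_of_dominated_convergence hBs (fun n => Va_tendsto (hne n))
      (Eventually.of_forall fun a n => hVB a n)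
  have hVs : Summable fun n : ℤ => V (x + n * Λ) :=
    Summable.of_norm_bounded hBs fun n => by
      rw [V_eq_Va (hne n)]
      exact hVB _ n
  refine ⟨hVs, ?_⟩
  -- the right side
  have hev : ∀ᶠ a in 𝓝[<] (π / 2), 0 ≤ a ∧ a < π / 2 := by
    have h1 : ∀ᶠ a in 𝓝[<] (π / 2), a < π / 2 := eventually_mem_nhdsWithin
    have h2 : ∀ᶠ a in 𝓝[<] (π / 2), 0 ≤ a :=
      (eventually_ge_nhds (by positivity : (0:ℝ) < π / 2)).filter_mono nhdsWithin_le_nhds
    exact h2.and h1
  -- the geometric part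
  set φ : ℝ := 2 * π * x / Λ with hφ
  set z : ℝ → ℂ := fun a => ((Real.exp (-(2 * π / Λ * (π / 2 - a))) : ℝ) : ℂ) *
    Complex.exp ((φ : ℝ) * Complex.I) with hz
  have hznorm : ∀ a, a < π / 2 → ‖z a‖ < 1 := by
    intro a ha
    rw [hz]
    simp only
    rw [norm_mul, Complex.norm_exp_ofReal_mul_I, mul_one, Complex.norm_real, Real.norm_eq_abs,
      abs_of_pos (Real.exp_pos _), Real.exp_lt_one_iff]
    have : 0 < 2 * π / Λ * (π / 2 - a) := by
      have : 0 < π / 2 - a := by linarith
      positivity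
    linarith
  have hzpow : ∀ a, ∀ p : ℕ, ((z a) ^ (p + 1)).re =
      Real.exp (-(kp Λ p * (π / 2 - a))) * Real.cos (kp Λ p * x) := by
    intro a p
    rw [hz]
    simp only
    rw [mul_pow, ← Complex.exp_nat_mul, ← Complex.ofReal_pow, ← Real.exp_nat_mul,
      Complex.re_ofReal_mul]
    have e1 : ((p + 1 : ℕ) : ℂ) * ((φ : ℝ) * Complex.I) = ((kp Λ p * x : ℝ) : ℂ) * Complex.I := by
      rw [hφ, kp]
      push_cast
      ring
    rw [e1, Complex.exp_ofReal_mul_I_re]
    congr 2
    unfold kp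
    push_cast
    ring
  have hR : Tendsto (fun a => 1 / Λ * (2 * (a ^ 2 - 7 * l ^ 2)) +
      (-2 * Real.log ‖1 - z a‖ + ∑' p : ℕ, 2 / ((p : ℝ) + 1) * rem a (kp Λ p) *
        Real.cos (kp Λ p * x))) (𝓝[<] (π / 2))
      (𝓝 (1 / Λ * (2 * ((π / 2) ^ 2 - 7 * l ^ 2)) +
      (-2 * Real.log ‖1 - z (π / 2)‖ + ∑' p : ℕ, 2 / ((p : ℝ) + 1) * rem (π / 2) (kp Λ p) *
        Real.cos (kp Λ p * x)))) := by
    refine Tendsto.add ?_ (Tendsto.add ?_ ?_)
    · have : Continuous fun a : ℝ => 1 / Λ * (2 * (a ^ 2 - 7 * l ^ 2)) := by fun_prop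
      exact (this.tendsto _).mono_left nhdsWithin_le_nhds
    · have hzc : Continuous z := by
        rw [hz]
        fun_prop
      have h1 : ContinuousAt (fun a => -2 * Real.log ‖1 - z a‖) (π / 2) := by
        apply ContinuousAt.mul continuousAt_const
        apply ContinuousAt.log (by fun_prop)
        rw [norm_ne_zero_iff, sub_ne_zero]
        rw [hz]
        simp only [sub_self, mul_zero, neg_zero, Real.exp_zero, Complex.ofReal_one, one_mul]
        intro h0
        have h0' := h0.symm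
        rw [Complex.exp_eq_one_iff] at h0'
        obtain ⟨n, hn⟩ := h0'
        have h2 : φ = n * (2 * π) := by
          have h3 : ((φ : ℝ) : ℂ) * Complex.I = ((n * (2 * π) : ℝ) : ℂ) * Complex.I := by
            rw [hn]
            push_cast
            ring
          exact_mod_cast mul_right_cancel₀ Complex.I_ne_zero h3
        rw [hφ] at h2
        have h4 : x = n * Λ := by
          field_simp at h2
          linarith
        have h5 := hne (-n)
        apply h5
        push_cast
        linarith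
      exact h1.tendsto.mono_left nhdsWithin_le_nhds
    · refine tendsto_tsum_of_dominated_convergence (bound := fun p : ℕ => 2 * (6 / ((1 - Real.exp (-(π * kp Λ 0))) / 2) *
        Real.exp (-(l * kp Λ p)))) (((summable_kexp hΛ hl).mul_left _).mul_left _) ?_ ?_
      · intro p
        have h1 : Continuous fun a => 2 / ((p : ℝ) + 1) * rem a (kp Λ p) * Real.cos (kp Λ p * x) := by
          unfold rem
          fun_prop
        exact (h1.tendsto _).mono_left nhdsWithin_le_nhds
      · filter_upwards [hev] with a ha p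
        have h1 := rem_le hΛ ha.1 ha.2.le p
        have h2 : 2 / ((p : ℝ) + 1) ≤ 2 := by
          apply div_le_self (by norm_num)
          have : (0:ℝ) ≤ p := Nat.cast_nonneg p
          linarith
        have h3 := Real.abs_cos_le_one (kp Λ p * x)
        rw [norm_mul, norm_mul, Real.norm_eq_abs, Real.norm_eq_abs, Real.norm_eq_abs,
          abs_of_pos (by positivity : 0 < 2 / ((p : ℝ) + 1))]
        calc 2 / ((p : ℝ) + 1) * |rem a (kp Λ p)| * |Real.cos (kp Λ p * x)| ≤
            2 * |rem a (kp Λ p)| * 1 := by gcongr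
          _ ≤ _ := by linarith
  have heq : ∀ᶠ a in 𝓝[<] (π / 2), ∑' n : ℤ, Va a (x + n * Λ) =
      1 / Λ * (2 * (a ^ 2 - 7 * l ^ 2)) +
      (-2 * Real.log ‖1 - z a‖ + ∑' p : ℕ, 2 / ((p : ℝ) + 1) * rem a (kp Λ p) *
        Real.cos (kp Λ p * x)) := by
    filter_upwards [hev] with a ha
    rw [poisson_Va hΛ (by rw [abs_of_nonneg ha.1]; exact ha.2) x]
    congr 1
    have h1 := hasSum_log (hznorm a ha.2)
    have h2 : Summable fun p : ℕ => 2 / ((p : ℝ) + 1) * rem a (kp Λ p) * Real.cos (kp Λ p * x) := by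
      refine Summable.of_norm_bounded (g := fun p : ℕ => 2 * (6 / ((1 - Real.exp (-(π * kp Λ 0))) / 2) *
        Real.exp (-(l * kp Λ p)))) (((summable_kexp hΛ hl).mul_left _).mul_left _) fun p => ?_
      have h1 := rem_le hΛ ha.1 ha.2.le p
      have h2 : 2 / ((p : ℝ) + 1) ≤ 2 := by
        apply div_le_self (by norm_num)
        have : (0:ℝ) ≤ p := Nat.cast_nonneg p
        linarith
      have h3 := Real.abs_cos_le_one (kp Λ p * x)
      rw [norm_mul, norm_mul, Real.norm_eq_abs, Real.norm_eq_abs, Real.norm_eq_abs,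
        abs_of_pos (by positivity : 0 < 2 / ((p : ℝ) + 1))]
      calc 2 / ((p : ℝ) + 1) * |rem a (kp Λ p)| * |Real.cos (kp Λ p * x)| ≤
          2 * |rem a (kp Λ p)| * 1 := by gcongr
        _ ≤ _ := by linarith
    rw [← (h1.add h2.hasSum).tsum_eq]
    congr 1
    funext p
    rw [hzpow, num_split (kp_pos hΛ p)]
    ring
  have hfin := tendsto_nhds_unique hL (hR.congr' (heq.mono fun a h => h.symm))
  rw [hfin]
  have hz1 : z (π / 2) = Complex.exp ((φ : ℝ) * Complex.I) := by
    rw [hz]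
    simp
  have hw : ∀ p : ℕ, 2 / ((p : ℝ) + 1) * rem (π / 2) (kp Λ p) * Real.cos (kp Λ p * x) =
      -(wc Λ p * Real.cos (kp Λ p * x)) := by
    intro p
    rw [← l4, rem_limit (kp_pos hΛ p), wc]
    ring
  simp_rw [hw]
  rw [tsum_neg, hz1]
  have hl8 : l = π / 8 := rfl
  rw [hl8]
  ring

end

end NUC62
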