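import Mathlib

/-! Quadratic expansion of the energy of `F + x f`. -/

open Filter Topology

namespace NUC62

noncomputable section

variable {L : ℝ} {u : ℕ → ℝ}

/-- energy of a family of coefficients -/
def En (L : ℝ) (u : ℕ → ℝ) (F : ℕ → ℂ) : ℝ := ∑' p, L * ‖F p‖ ^ 2 / u p

theorem En_nonneg (hL : 0 < L) (hu : ∀ p, 0 < u p) (F : ℕ → ℂ) : 0 ≤ En L u F :=
  tsum_nonneg fun p => by have := hu p; positivity

theorem re_mul_conj_le (z w : ℂ) : |(z * (starRingEnd ℂ) w).re| ≤ (‖z‖ ^ 2 + ‖w‖ ^ 2) / 2 := by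
  have h1 := Complex.abs_re_le_norm (z * (starRingEnd ℂ) w)
  rw [norm_mul, Complex.norm_conj] at h1
  nlinarith [sq_nonneg (‖z‖ - ‖w‖)]

theorem norm_add_sq' (z w : ℂ) (x : ℝ) : ‖z + x * w‖ ^ 2 =
    ‖z‖ ^ 2 + 2 * x * (z * (starRingEnd ℂ) w).re + x ^ 2 * ‖w‖ ^ 2 := by
  rw [← Complex.normSq_eq_norm_sq, ← Complex.normSq_eq_norm_sq, ← Complex.normSq_eq_norm_sq,
    Complex.normSq_add, Complex.normSq_mul, Complex.normSq_ofReal, map_mul, Complex.conj_ofReal]
  have : (z * ((x : ℂ) * (starRingEnd ℂ) w)).re = x * (z * (starRingEnd ℂ) w).re := by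
    rw [show z * ((x : ℂ) * (starRingEnd ℂ) w) = (x : ℂ) * (z * (starRingEnd ℂ) w) by ring,
      Complex.re_ofReal_mul]
  rw [this]
  ring

theorem Q_expand (hL : 0 < L) (hu : ∀ p, 0 < u p) {F f : ℕ → ℂ}
    (hF : Summable fun p => L * ‖F p‖ ^ 2 / u p) (hf : Summable fun p => L * ‖f p‖ ^ 2 / u p) :
    ∃ B : ℝ, B ^ 2 ≤ En L u F * En L u f ∧ ∀ x : ℝ,
      (Summable fun p => L * ‖F p + x * f p‖ ^ 2 / u p) ∧
      En L u (fun p => F p + x * f p) = En L u F + 2 * x * B + x ^ 2 * En L u f := by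
  have hB : Summable fun p => L * (F p * (starRingEnd ℂ) (f p)).re / u p := by
    refine Summable.of_norm_bounded (hF.add hf) fun p => ?_
    have h1 := re_mul_conj_le (F p) (f p)
    have h2 := hu p
    rw [Real.norm_eq_abs, abs_div, abs_mul, abs_of_pos hL, abs_of_pos h2, ← add_div]
    gcongr
    have h3 : 0 ≤ ‖F p‖ ^ 2 := by positivity
    have h4 : 0 ≤ ‖f p‖ ^ 2 := by positivity
    nlinarith
  have hx : ∀ x : ℝ, (Summable fun p => L * ‖F p + x * f p‖ ^ 2 / u p) ∧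
      En L u (fun p => F p + x * f p) = En L u F +
        2 * x * (∑' p, L * (F p * (starRingEnd ℂ) (f p)).re / u p) + x ^ 2 * En L u f := by
    intro x
    have e : (fun p => L * ‖F p + x * f p‖ ^ 2 / u p) = fun p => L * ‖F p‖ ^ 2 / u p +
        2 * x * (L * (F p * (starRingEnd ℂ) (f p)).re / u p) + x ^ 2 * (L * ‖f p‖ ^ 2 / u p) := by
      funext p
      rw [norm_add_sq']
      ring
    have s := (hF.add (hB.mul_left (2 * x))).add (hf.mul_left (x ^ 2))
    refine ⟨by rw [e]; exact s, ?_⟩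
    unfold En
    rw [e, (hF.add (hB.mul_left (2 * x))).tsum_add (hf.mul_left (x ^ 2)),
      hF.tsum_add (hB.mul_left (2 * x)), tsum_mul_left, tsum_mul_left]
  refine ⟨_, ?_, hx⟩
  set B := ∑' p, L * (F p * (starRingEnd ℂ) (f p)).re / u p
  have h1 : ∀ x : ℝ, 0 ≤ En L u f * (x * x) + 2 * B * x + En L u F := by
    intro x
    have := En_nonneg hL hu (fun p => F p + x * f p)
    rw [(hx x).2] at this
    nlinarith
  have h2 := discrim_le_zero h1
  unfold discrim at h2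
  nlinarith

end

end NUC62
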