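import Pool.Agent.NUC62.Per3
import Pool.Agent.NUWC.Tent

/-! Fourier data of the tent mixture `NUWC.RG`. -/

open MeasureTheory Set Filter Topology
open scoped Real

namespace NUC62

open NUMF NUWC

noncomputable section

/-- the tent -/
def tent (x s : ℝ) : ℝ := max (x - |s|) 0

theorem tent_cont (x : ℝ) : Continuous (tent x) := by unfold tent; fun_prop

theorem tent_nonneg (x s : ℝ) : 0 ≤ tent x s := le_max_right _ _

theorem tent_supp {x s : ℝ} (h : x ≤ |s|) : tent x s = 0 := max_eq_right (by linarith)

theorem tent_int {x : ℝ} (hx : 0 < x) (f : ℝ → ℝ) (hf : Continuous f) (he : ∀ s, f (-s) = f s) :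
    Integrable (fun s => tent x s * f s) ∧
    ∫ s, tent x s * f s = 2 * ∫ s in (0 : ℝ)..x, (x - s) * f s := by
  have h0 : Function.support (fun s => tent x s * f s) ⊆ Ioc (-x) x := by
    intro s hs
    rw [Function.mem_support] at hs
    by_contra h
    apply hs
    have : x ≤ |s| := by
      by_contra h2
      rw [not_le, abs_lt] at h2
      exact h ⟨h2.1, h2.2.le⟩
    rw [tent_supp this, zero_mul]
  have hc : Continuous fun s => tent x s * f s := (tent_cont x).mul hf
  constructor
  · rw [← integrableOn_iff_integrable_of_support_subset h0]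
    exact (hc.integrableOn_Icc).mono_set Ioc_subset_Icc_self
  · rw [← setIntegral_eq_integral_of_forall_compl_eq_zero (s := Ioc (-x) x) (fun s hs => by
      by_contra h
      exact hs (h0 h)), ← intervalIntegral.integral_of_le (by linarith),
      ← intervalIntegral.integral_add_adjacent_intervals (b := 0)
        (hc.intervalIntegrable _ _) (hc.intervalIntegrable _ _)]
    have h1 : ∫ s in (-x)..0, tent x s * f s = ∫ s in (0 : ℝ)..x, tent x s * f s := by
      have := intervalIntegral.integral_comp_neg (a := 0) (b := x) fun s => tent x s * f s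
      rw [neg_zero] at this
      rw [← this]
      congr 1
      funext s
      unfold tent
      rw [abs_neg, he]
    rw [h1, ← two_mul]
    congr 1
    refine intervalIntegral.integral_congr fun s hs => ?_
    rw [uIcc_of_le hx.le] at hs
    unfold tent
    rw [abs_of_nonneg hs.1, max_eq_left (by linarith [hs.2])]

theorem tent_cos {x k : ℝ} (hx : 0 < x) (hk : k ≠ 0) :
    ∫ s, tent x s * Real.cos (k * s) = 2 * (1 - Real.cos (k * x)) / k ^ 2 := by
  rw [(tent_int hx (fun s => Real.cos (k * s)) (by fun_prop) fun s => by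
    rw [mul_neg, Real.cos_neg]).2]
  have h1 : ∀ s ∈ uIcc 0 x, HasDerivAt (fun s => (x - s) * Real.sin (k * s) / k -
      Real.cos (k * s) / k ^ 2) ((x - s) * Real.cos (k * s)) s := by
    intro s _
    have e1 : HasDerivAt (fun s => k * s) k s := by
      simpa using (hasDerivAt_id s).const_mul k
    have e2 := e1.sin
    have e3 := e1.cos
    have e4 : HasDerivAt (fun s => x - s) (-1) s := by
      simpa using (hasDerivAt_id s).const_sub x
    refine (((e4.mul e2).div_const k).sub (e3.div_const (k ^ 2))).congr_deriv ?_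
    field_simp
    ring
  rw [intervalIntegral.integral_eq_sub_of_hasDerivAt h1 (by
    apply Continuous.intervalIntegrable; fun_prop)]
  simp
  field_simp
  ring

theorem tent_one {x : ℝ} (hx : 0 < x) : ∫ s, tent x s = x ^ 2 := by
  have h := (tent_int hx (fun _ => 1) (by fun_prop) fun s => rfl).2
  simp only [mul_one] at h
  rw [h]
  have h1 : ∀ s ∈ uIcc 0 x, HasDerivAt (fun s => x * s - s ^ 2 / 2) (x - s) s := by
    intro s _
    refine (((hasDerivAt_id s).const_mul x).sub ((hasDerivAt_pow 2 s).div_const 2)).congr_deriv ?_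
    simp
  rw [intervalIntegral.integral_eq_sub_of_hasDerivAt h1 (by
    apply Continuous.intervalIntegrable; fun_prop)]
  ring

theorem tent_integrable {x : ℝ} (hx : 0 < x) : Integrable (tent x) := by
  have h := (tent_int hx (fun _ => 1) (by fun_prop) fun s => rfl).1
  simpa using h

/-- Fourier transform of `RG` -/
def RGh (G k : ℝ) : ℝ := ∫ x in Ioi G, V2 x * (2 * (1 - Real.cos (k * x)) / k ^ 2)

/-- integral of `RG` -/
def RGz (G : ℝ) : ℝ := ∫ x in Ioi G, V2 x * x ^ 2

theorem V2x2_int {G : ℝ} (hG : 1 ≤ G) : IntegrableOn (fun x => V2 x * x ^ 2) (Ioi G) := by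
  refine Integrable.mono' (V2_int hG) (V2_meas.mul (by fun_prop)).aestronglyMeasurable ?_
  filter_upwards [ae_restrict_mem measurableSet_Ioi] with x hx
  have hx1 : 1 ≤ x := hG.trans (le_of_lt hx)
  have h1 := V2_pos (by linarith : 0 < x)
  rw [norm_mul, Real.norm_eq_abs, Real.norm_eq_abs, abs_of_pos h1,
    abs_of_nonneg (by positivity : 0 ≤ x ^ 2)]
  gcongr
  nlinarith

theorem prod_int {G : ℝ} (hG : 1 ≤ G) (k : ℝ) :
    Integrable (Function.uncurry fun s x : ℝ => V2 x * (tent x s * Real.cos (k * s)))
      (volume.prod (volume.restrict (Ioi G))) := by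
  have hm : Measurable (Function.uncurry fun s x : ℝ => V2 x * (tent x s * Real.cos (k * s))) := by
    unfold tent Function.uncurry
    have := V2_meas
    fun_prop
  rw [integrable_prod_iff' hm.aestronglyMeasurable]
  constructor
  · filter_upwards [ae_restrict_mem measurableSet_Ioi] with x hx
    have hx1 : 0 < x := by linarith [show G < x from hx]
    exact (tent_int hx1 (fun s => Real.cos (k * s)) (by fun_prop) fun s => by
      rw [mul_neg, Real.cos_neg]).1.const_mul (V2 x)
  · refine Integrable.mono' (V2x2_int hG) ?_ ?_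
    · exact (hm.norm.stronglyMeasurable.integral_prod_left' (μ := volume)).aestronglyMeasurable
    · filter_upwards [ae_restrict_mem measurableSet_Ioi] with x hx
      have hx1 : 0 < x := by linarith [show G < x from hx]
      have h1 := V2_pos hx1
      have h2 : ∫ s, ‖Function.uncurry (fun s x : ℝ => V2 x * (tent x s * Real.cos (k * s))) (s, x)‖ ≤
          ∫ s, V2 x * tent x s := by
        refine integral_mono_of_nonneg (ae_of_all _ fun s => norm_nonneg _)
          ((tent_integrable hx1).const_mul _) (ae_of_all _ fun s => ?_)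
        simp only [Function.uncurry_apply_pair]
        rw [Real.norm_eq_abs, abs_mul, abs_mul, abs_of_pos h1, abs_of_nonneg (tent_nonneg _ _)]
        have := Real.abs_cos_le_one (k * s)
        have h3 := tent_nonneg x s
        calc V2 x * (tent x s * |Real.cos (k * s)|) ≤ V2 x * (tent x s * 1) := by gcongr
          _ = _ := by ring
      rw [integral_const_mul, tent_one hx1] at h2
      rw [Real.norm_eq_abs, abs_of_nonneg (integral_nonneg fun s => norm_nonneg _)]
      exact h2

theorem RG_fubini {G : ℝ} (hG : 1 ≤ G) (k : ℝ) :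
    Integrable (fun s => RG G s * Real.cos (k * s)) ∧
    ∫ s, RG G s * Real.cos (k * s) = ∫ x in Ioi G, V2 x * ∫ s, tent x s * Real.cos (k * s) := by
  have h0 : ∀ s, RG G s * Real.cos (k * s) = ∫ x in Ioi G, V2 x * (tent x s * Real.cos (k * s)) := by
    intro s
    unfold RG
    rw [← integral_mul_const]
    congr 1
    funext x
    unfold tent
    ring
  constructor
  · simp_rw [h0]
    exact (prod_int hG k).integral_prod_left
  · simp_rw [h0]
    rw [integral_integral_swap (prod_int hG k)]
    congr 1
    funext x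
    rw [integral_const_mul]

theorem RG_integrable {G : ℝ} (hG : 1 ≤ G) : Integrable (RG G) := by
  simpa using (RG_fubini hG 0).1

theorem RG_forward {G k : ℝ} (hG : 1 ≤ G) (hk : k ≠ 0) :
    ∫ s, RG G s * Real.cos (k * s) = RGh G k := by
  rw [(RG_fubini hG k).2, RGh]
  refine setIntegral_congr_fun measurableSet_Ioi fun x hx => ?_
  have hx1 : 0 < x := by linarith [show G < x from hx]
  rw [tent_cos hx1 hk]

theorem RG_zero {G : ℝ} (hG : 1 ≤ G) : ∫ s, RG G s = RGz G := by
  have h := (RG_fubini hG 0).2
  simp only [zero_mul, Real.cos_zero, mul_one] at h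
  rw [h, RGz]
  refine setIntegral_congr_fun measurableSet_Ioi fun x hx => ?_
  have hx1 : 0 < x := by linarith [show G < x from hx]
  rw [tent_one hx1]

theorem RGh_nonneg {G : ℝ} (hG : 1 ≤ G) (k : ℝ) : 0 ≤ RGh G k := by
  unfold RGh
  refine setIntegral_nonneg measurableSet_Ioi fun x hx => ?_
  have := V2_pos (by linarith [show G < x from hx] : 0 < x)
  have h2 := Real.cos_le_one (k * x)
  exact mul_nonneg this.le (div_nonneg (by linarith) (sq_nonneg k))

theorem RGz_nonneg {G : ℝ} (hG : 1 ≤ G) : 0 ≤ RGz G := by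
  unfold RGz
  refine setIntegral_nonneg measurableSet_Ioi fun x hx => ?_
  have := V2_pos (by linarith [show G < x from hx] : 0 < x)
  positivity

theorem coef_le (k x : ℝ) : 2 * (1 - Real.cos (k * x)) / k ^ 2 ≤ x ^ 2 := by
  rcases eq_or_ne k 0 with h | h
  · subst h
    simp
    positivity
  · rw [div_le_iff₀ (by positivity)]
    have := Real.one_sub_sq_div_two_le_cos (x := k * x)
    nlinarith

theorem RGh_int {G : ℝ} (hG : 1 ≤ G) (k : ℝ) :
    IntegrableOn (fun x => V2 x * (2 * (1 - Real.cos (k * x)) / k ^ 2)) (Ioi G) := by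
  refine Integrable.mono' (V2x2_int hG) (V2_meas.mul (by fun_prop)).aestronglyMeasurable ?_
  filter_upwards [ae_restrict_mem measurableSet_Ioi] with x hx
  have h1 := V2_pos (by linarith [show G < x from hx] : 0 < x)
  have h2 := Real.cos_le_one (k * x)
  have h3 : 0 ≤ 2 * (1 - Real.cos (k * x)) / k ^ 2 := div_nonneg (by linarith) (sq_nonneg k)
  rw [norm_mul, Real.norm_eq_abs, Real.norm_eq_abs, abs_of_pos h1, abs_of_nonneg h3]
  exact mul_le_mul_of_nonneg_left (coef_le k x) h1.le

theorem RGh_le {G : ℝ} (hG : 1 ≤ G) (k : ℝ) : RGh G k ≤ RGz G := by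
  unfold RGh RGz
  refine setIntegral_mono_on (RGh_int hG k) (V2x2_int hG) measurableSet_Ioi fun x hx => ?_
  have h1 := V2_pos (by linarith [show G < x from hx] : 0 < x)
  exact mul_le_mul_of_nonneg_left (coef_le k x) h1.le

/-- total mass of `V''` beyond `G`: `-V' G` -/
def RGm (G : ℝ) : ℝ := ∫ x in Ioi G, V2 x

theorem V2_int' {G : ℝ} (hG : 1 ≤ G) : IntegrableOn V2 (Ioi G) := by
  refine Integrable.mono' (V2_int hG) V2_meas.aestronglyMeasurable ?_
  filter_upwards [ae_restrict_mem measurableSet_Ioi] with x hx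
  have hx1 : 1 ≤ x := hG.trans (le_of_lt hx)
  have h1 := V2_pos (by linarith : 0 < x)
  rw [Real.norm_eq_abs, abs_of_pos h1]
  nlinarith

theorem RGh_le' {G k : ℝ} (hG : 1 ≤ G) : RGh G k ≤ 4 * RGm G / k ^ 2 := by
  unfold RGh RGm
  have : 4 * (∫ x in Ioi G, V2 x) / k ^ 2 = ∫ x in Ioi G, V2 x * (4 / k ^ 2) := by
    rw [integral_mul_const]; ring
  rw [this]
  refine setIntegral_mono_on (RGh_int hG k) ((V2_int' hG).mul_const _) measurableSet_Ioi
    fun x hx => ?_
  have h1 := V2_pos (by linarith [show G < x from hx] : 0 < x)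
  have h2 := Real.neg_one_le_cos (k * x)
  refine mul_le_mul_of_nonneg_left ?_ h1.le
  gcongr
  linarith

/-- explicit smallness -/
theorem RGm_le {G : ℝ} (hG : 1 ≤ G) : RGm G ≤ 144 * Real.exp (-(2 * G)) := by
  unfold RGm
  have h0 : IntegrableOn (fun x : ℝ => 288 * Real.exp (-2 * x)) (Ioi G) :=
    (integrableOn_exp_mul_Ioi (by norm_num) G).const_mul _
  refine (setIntegral_mono_on (V2_int' hG) h0 measurableSet_Ioi fun x hx => ?_).trans_eq ?_
  · have := V2_abs_le (hG.trans (le_of_lt hx))
    rw [show -2 * x = -(2 * x) by ring]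
    exact (le_abs_self _).trans this
  · rw [integral_const_mul, integral_exp_mul_Ioi (by norm_num)]
    ring_nf

end

end NUC62
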